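import Pool.Agent.Lib_MP_1209e6_fl.Defs

/-! The curve `w ^ 2 = q (t)`, `deg q ≤ 4`, over a field `k`: the global vector field `D t = w`. -/

set_option autoImplicit false

open Pool.Agent.CampanaFlow

namespace Pool.Agent.CampanaDP

section

variable {L : Type} [Field L] [Algebra ℂ L]

theorem pres (D : Derivation ℂ L L) (R : Subalgebra ℂ L) (s : Set L)
    (hs : Algebra.adjoin ℂ s ≤ R) (h : ∀ y ∈ s, D y ∈ R) :
    ∀ f ∈ Algebra.adjoin ℂ s, D f ∈ R := by
  intro f hf
  induction hf using Algebra.adjoin_induction with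
  | mem x hx => exact h x hx
  | algebraMap r => rw [Derivation.map_algebraMap]; exact R.zero_mem
  | add x y _ _ hx hy => rw [map_add]; exact R.add_mem hx hy
  | mul x y hx' hy' hx hy =>
    rw [Derivation.leibniz, smul_eq_mul, smul_eq_mul]
    exact R.add_mem (R.mul_mem (hs hx') hy) (R.mul_mem (hs hy') hx)

theorem der_w (t w : L) (hw : w ≠ 0) (q : Fin 5 → L) (D : Derivation ℂ L L)
    (hDq : ∀ i, D (q i) = 0)
    (h : w ^ 2 = q 0 + q 1 * t + q 2 * t ^ 2 + q 3 * t ^ 3 + q 4 * t ^ 4)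
    (hDt : D t = w) :
    D w = (1 / 2) * (q 1 + 2 * q 2 * t + 3 * q 3 * t ^ 2 + 4 * q 4 * t ^ 3) := by
  have h1 := congrArg D h
  have hL : CharZero L := charZero_of_injective_algebraMap (algebraMap ℂ L).injective
  simp only [map_add, Derivation.leibniz, Derivation.leibniz_pow, hDq, hDt, smul_eq_mul,
    nsmul_eq_mul, mul_zero, add_zero] at h1
  have h2 : w * (D w - (1 / 2) * (q 1 + 2 * q 2 * t + 3 * q 3 * t ^ 2 + 4 * q 4 * t ^ 3)) = 0 := by
    have h3 : (2 : L) ≠ 0 := two_ne_zero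
    push_cast at h1
    linear_combination (1 / 2) * h1
  exact sub_eq_zero.1 ((mul_eq_zero.1 h2).resolve_left hw)

/-- `D t = w` is a global vector field of the curve `w ^ 2 = q (t)`, `deg q ≤ 4`, with generic point
`[1 : t : t ^ 2 : w]`. -/
theorem dp_global (k : IntermediateField ℂ L) (t w : L) (ht : t ≠ 0) (hw : w ≠ 0) (q : Fin 5 → L)
    (hq : ∀ i, q i ∈ k)
    (h : w ^ 2 = q 0 + q 1 * t + q 2 * t ^ 2 + q 3 * t ^ 3 + q 4 * t ^ 4)
    (D : Derivation ℂ L L) (hk : ∀ a ∈ k, D a = 0) (hDt : D t = w) :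
    GlobalField k (![1, t, t ^ 2, w] : Fin (3 + 1) → L) D := by
  have hL : CharZero L := charZero_of_injective_algebraMap (algebraMap ℂ L).injective
  have hDw := der_w t w hw q D (fun i => hk _ (hq i)) h hDt
  have hsub : ∀ (j : Fin (3 + 1)) (a : L), a ∈ k →
      a ∈ Chart k (![1, t, t ^ 2, w] : Fin (3 + 1) → L) j :=
    fun j a ha => Algebra.subset_adjoin (Or.inl ha)
  have hx : ∀ j i : Fin (3 + 1), (![1, t, t ^ 2, w] : Fin (3 + 1) → L) i /
      (![1, t, t ^ 2, w] : Fin (3 + 1) → L) j ∈ Chart k (![1, t, t ^ 2, w] : Fin (3 + 1) → L) j :=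
    fun j i => Algebra.subset_adjoin (Or.inr ⟨i, rfl⟩)
  have hD1 : D 1 = 0 := Derivation.map_one_eq_zero D
  refine ⟨hk, fun j => ?_⟩
  apply pres D _ _ le_rfl
  have hnat : ∀ c : L, c ∈ k → ∀ y : L, y ∈ Chart k (![1, t, t ^ 2, w] : Fin (3 + 1) → L) j →
      c * y ∈ Chart k (![1, t, t ^ 2, w] : Fin (3 + 1) → L) j :=
    fun c hc y hy => Subalgebra.mul_mem _ (hsub j c hc) hy
  have h2k : ∀ n : ℕ, (n : L) ∈ k := fun n => natCast_mem k n
  have hhalf : (1 / 2 : L) ∈ k := k.div_mem k.one_mem (by simpa using h2k 2)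
  have c2 : (2 : L) ∈ k := by simpa using h2k 2
  have c3 : (3 : L) ∈ k := by simpa using h2k 3
  have c4 : (4 : L) ∈ k := by simpa using h2k 4
  rintro y (hy | ⟨i, rfl⟩)
  · rw [hk y hy]
    exact Subalgebra.zero_mem _
  have hq0 := hq 0
  have hq1 := hq 1
  have hq2 := hq 2
  have hq3 := hq 3
  have hq4 := hq 4
  fin_cases j
  · -- chart `1`
    have e1 : t ∈ Chart k (![1, t, t ^ 2, w] : Fin (3 + 1) → L) 0 := by
      have := hx 0 1
      simpa using this
    have e3 : w ∈ Chart k (![1, t, t ^ 2, w] : Fin (3 + 1) → L) 0 := by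
      have := hx 0 3
      simpa using this
    fin_cases i
    · show D (1 / 1) ∈ _
      rw [div_one, hD1]
      exact Subalgebra.zero_mem _
    · show D (t / 1) ∈ _
      rw [div_one, hDt]
      exact e3
    · show D (t ^ 2 / 1) ∈ _
      rw [div_one, Derivation.leibniz_pow, hDt]
      simp only [smul_eq_mul, nsmul_eq_mul]
      exact Subalgebra.mul_mem _ (hsub 0 _ (h2k 2)) (Subalgebra.mul_mem _ (Subalgebra.pow_mem _ e1 _) e3)
    · show D (w / 1) ∈ _
      rw [div_one, hDw]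
      have m : ∀ {a b : L}, a ∈ k → b ∈ Chart k (![1, t, t ^ 2, w] : Fin (3 + 1) → L) 0 →
        a * b ∈ Chart k (![1, t, t ^ 2, w] : Fin (3 + 1) → L) 0 := fun ha hb => hnat _ ha _ hb
      refine m hhalf (Subalgebra.add_mem _ (Subalgebra.add_mem _ (Subalgebra.add_mem _
        (hsub 0 _ hq1) ?_) ?_) ?_)
      · exact m (k.mul_mem c2 hq2) e1
      · exact m (k.mul_mem c3 hq3) (Subalgebra.pow_mem _ e1 _)
      · exact m (k.mul_mem c4 hq4) (Subalgebra.pow_mem _ e1 _)
  · -- chart `t`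
    have e0 : t⁻¹ ∈ Chart k (![1, t, t ^ 2, w] : Fin (3 + 1) → L) 1 := by
      have := hx 1 0
      simpa using this
    have e1 : t ∈ Chart k (![1, t, t ^ 2, w] : Fin (3 + 1) → L) 1 := by
      have := hx 1 2
      have h4 : t ^ 2 / t = t := by field_simp
      simpa [h4] using this
    have e3 : w / t ∈ Chart k (![1, t, t ^ 2, w] : Fin (3 + 1) → L) 1 := by
      have := hx 1 3
      simpa using this
    have m : ∀ {a b : L}, a ∈ k → b ∈ Chart k (![1, t, t ^ 2, w] : Fin (3 + 1) → L) 1 →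
      a * b ∈ Chart k (![1, t, t ^ 2, w] : Fin (3 + 1) → L) 1 := fun ha hb => hnat _ ha _ hb
    fin_cases i
    · show D (1 / t) ∈ _
      rw [Derivation.leibniz_div, hD1, hDt]
      have h5 : t⁻¹ ^ 2 • (t • (0 : L) - (1 : L) • w) = -(w / t * t⁻¹) := by
        simp only [smul_eq_mul]
        field_simp
        ring
      rw [h5]
      exact Subalgebra.neg_mem _ (Subalgebra.mul_mem _ e3 e0)
    · show D (t / t) ∈ _
      rw [div_self ht, hD1]
      exact Subalgebra.zero_mem _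
    · show D (t ^ 2 / t) ∈ _
      have h4 : t ^ 2 / t = t := by field_simp
      rw [h4, hDt]
      have h5 := Subalgebra.mul_mem _ e3 e1
      rw [div_mul_cancel₀ w ht] at h5
      exact h5
    · show D (w / t) ∈ _
      rw [Derivation.leibniz_div, hDw, hDt]
      have h5 : t⁻¹ ^ 2 • (t • ((1 / 2) * (q 1 + 2 * q 2 * t + 3 * q 3 * t ^ 2 + 4 * q 4 * t ^ 3))
          - w • w) = -(q 0 * t⁻¹ ^ 2) - (1 / 2 * q 1) * t⁻¹ + (1 / 2 * q 3) * t + q 4 * t ^ 2 := by
        simp only [smul_eq_mul]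
        have h6 : w * w = q 0 + q 1 * t + q 2 * t ^ 2 + q 3 * t ^ 3 + q 4 * t ^ 4 := by
          rw [← h]; ring
        rw [h6]
        field_simp
        ring
      rw [h5]
      refine Subalgebra.add_mem _ (Subalgebra.add_mem _ (Subalgebra.sub_mem _
        (Subalgebra.neg_mem _ ?_) ?_) ?_) ?_
      · exact m hq0 (Subalgebra.pow_mem _ e0 _)
      · exact m (k.mul_mem hhalf hq1) e0
      · exact m (k.mul_mem hhalf hq3) e1
      · exact m hq4 (Subalgebra.pow_mem _ e1 _)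
  · -- chart `t ^ 2`
    have e1 : t⁻¹ ∈ Chart k (![1, t, t ^ 2, w] : Fin (3 + 1) → L) 2 := by
      have := hx 2 1
      have h4 : t / t ^ 2 = t⁻¹ := by field_simp
      simpa [h4] using this
    have e3 : w / t ^ 2 ∈ Chart k (![1, t, t ^ 2, w] : Fin (3 + 1) → L) 2 := by
      have := hx 2 3
      simpa using this
    have m : ∀ {a b : L}, a ∈ k → b ∈ Chart k (![1, t, t ^ 2, w] : Fin (3 + 1) → L) 2 →
      a * b ∈ Chart k (![1, t, t ^ 2, w] : Fin (3 + 1) → L) 2 := fun ha hb => hnat _ ha _ hb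
    have hDt2 : D (t ^ 2) = 2 * t * w := by
      rw [Derivation.leibniz_pow, hDt]
      simp only [smul_eq_mul, nsmul_eq_mul]
      push_cast
      ring
    fin_cases i
    · show D (1 / t ^ 2) ∈ _
      rw [Derivation.leibniz_div, hD1, hDt2]
      have h5 : (t ^ 2)⁻¹ ^ 2 • (t ^ 2 • (0 : L) - (1 : L) • (2 * t * w)) =
          -(2 * (w / t ^ 2 * t⁻¹)) := by
        simp only [smul_eq_mul]
        field_simp
        ring
      rw [h5]
      exact Subalgebra.neg_mem _ (m c2 (Subalgebra.mul_mem _ e3 e1))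
    · show D (t / t ^ 2) ∈ _
      rw [Derivation.leibniz_div, hDt, hDt2]
      have h5 : (t ^ 2)⁻¹ ^ 2 • (t ^ 2 • w - t • (2 * t * w)) = -(w / t ^ 2) := by
        simp only [smul_eq_mul]
        field_simp
        ring
      rw [h5]
      exact Subalgebra.neg_mem _ e3
    · show D (t ^ 2 / t ^ 2) ∈ _
      rw [div_self (pow_ne_zero 2 ht), hD1]
      exact Subalgebra.zero_mem _
    · show D (w / t ^ 2) ∈ _
      rw [Derivation.leibniz_div, hDw, hDt2]
      have h5 : (t ^ 2)⁻¹ ^ 2 • (t ^ 2 • ((1 / 2) * (q 1 + 2 * q 2 * t + 3 * q 3 * t ^ 2 +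
          4 * q 4 * t ^ 3)) - w • (2 * t * w)) =
          -((2 * q 0) * t⁻¹ ^ 3) - ((3 / 2) * q 1) * t⁻¹ ^ 2 - q 2 * t⁻¹ - (1 / 2 * q 3) := by
        simp only [smul_eq_mul]
        have h6 : w * (2 * t * w) = 2 * t * (q 0 + q 1 * t + q 2 * t ^ 2 + q 3 * t ^ 3 + q 4 * t ^ 4) := by
          rw [← h]; ring
        rw [h6]
        field_simp
        ring
      rw [h5]
      have h32 : (3 / 2 : L) ∈ k := k.div_mem c3 c2
      refine Subalgebra.sub_mem _ (Subalgebra.sub_mem _ (Subalgebra.sub_mem _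
        (Subalgebra.neg_mem _ ?_) ?_) ?_) ?_
      · exact m (k.mul_mem c2 hq0) (Subalgebra.pow_mem _ e1 _)
      · exact m (k.mul_mem h32 hq1) (Subalgebra.pow_mem _ e1 _)
      · exact m hq2 e1
      · exact hsub 2 _ (k.mul_mem hhalf hq3)
  · -- chart `w`
    have e0 : w⁻¹ ∈ Chart k (![1, t, t ^ 2, w] : Fin (3 + 1) → L) 3 := by
      have := hx 3 0
      simpa using this
    have e1 : t / w ∈ Chart k (![1, t, t ^ 2, w] : Fin (3 + 1) → L) 3 := by
      have := hx 3 1
      simpa using this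
    have e2 : t ^ 2 / w ∈ Chart k (![1, t, t ^ 2, w] : Fin (3 + 1) → L) 3 := by
      have := hx 3 2
      simpa using this
    have m : ∀ {a b : L}, a ∈ k → b ∈ Chart k (![1, t, t ^ 2, w] : Fin (3 + 1) → L) 3 →
      a * b ∈ Chart k (![1, t, t ^ 2, w] : Fin (3 + 1) → L) 3 := fun ha hb => hnat _ ha _ hb
    have h32 : (3 / 2 : L) ∈ k := k.div_mem c3 c2
    have h6 : w ^ 2 = q 0 + q 1 * t + q 2 * t ^ 2 + q 3 * t ^ 3 + q 4 * t ^ 4 := h
    fin_cases i
    · show D (1 / w) ∈ _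
      rw [Derivation.leibniz_div, hD1, hDw]
      have h5 : w⁻¹ ^ 2 • (w • (0 : L) - (1 : L) • ((1 / 2) * (q 1 + 2 * q 2 * t + 3 * q 3 * t ^ 2 +
          4 * q 4 * t ^ 3))) =
          -((1 / 2 * q 1) * w⁻¹ ^ 2) - q 2 * (t / w * w⁻¹) - (3 / 2 * q 3) * (t / w) ^ 2 -
            (2 * q 4) * (t / w * (t ^ 2 / w)) := by
        simp only [smul_eq_mul]
        field_simp
        ring
      rw [h5]
      refine Subalgebra.sub_mem _ (Subalgebra.sub_mem _ (Subalgebra.sub_mem _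
        (Subalgebra.neg_mem _ ?_) ?_) ?_) ?_
      · exact m (k.mul_mem hhalf hq1) (Subalgebra.pow_mem _ e0 _)
      · exact m hq2 (Subalgebra.mul_mem _ e1 e0)
      · exact m (k.mul_mem h32 hq3) (Subalgebra.pow_mem _ e1 _)
      · exact m (k.mul_mem c2 hq4) (Subalgebra.mul_mem _ e1 e2)
    · show D (t / w) ∈ _
      rw [Derivation.leibniz_div, hDt, hDw]
      have h5 : w⁻¹ ^ 2 • (w • w - t • ((1 / 2) * (q 1 + 2 * q 2 * t + 3 * q 3 * t ^ 2 +
          4 * q 4 * t ^ 3))) =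
          q 0 * w⁻¹ ^ 2 + (1 / 2 * q 1) * (t / w * w⁻¹) - (1 / 2 * q 3) * (t / w * (t ^ 2 / w)) -
            q 4 * (t ^ 2 / w) ^ 2 := by
        simp only [smul_eq_mul]
        have h7 : w * w = q 0 + q 1 * t + q 2 * t ^ 2 + q 3 * t ^ 3 + q 4 * t ^ 4 := by
          rw [← h]; ring
        rw [h7]
        field_simp
        ring
      rw [h5]
      refine Subalgebra.sub_mem _ (Subalgebra.sub_mem _ (Subalgebra.add_mem _ ?_ ?_) ?_) ?_
      · exact m hq0 (Subalgebra.pow_mem _ e0 _)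
      · exact m (k.mul_mem hhalf hq1) (Subalgebra.mul_mem _ e1 e0)
      · exact m (k.mul_mem hhalf hq3) (Subalgebra.mul_mem _ e1 e2)
      · exact m hq4 (Subalgebra.pow_mem _ e2 _)
    · show D (t ^ 2 / w) ∈ _
      have hDt2 : D (t ^ 2) = 2 * t * w := by
        rw [Derivation.leibniz_pow, hDt]
        simp only [smul_eq_mul, nsmul_eq_mul]
        push_cast
        ring
      rw [Derivation.leibniz_div, hDt2, hDw]
      have h5 : w⁻¹ ^ 2 • (w • (2 * t * w) - t ^ 2 • ((1 / 2) * (q 1 + 2 * q 2 * t +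
          3 * q 3 * t ^ 2 + 4 * q 4 * t ^ 3))) =
          (2 * q 0) * (t / w * w⁻¹) + (3 / 2 * q 1) * (t / w) ^ 2 + q 2 * (t / w * (t ^ 2 / w)) +
            (1 / 2 * q 3) * (t ^ 2 / w) ^ 2 := by
        simp only [smul_eq_mul]
        have h7 : w * (2 * t * w) =
            2 * t * (q 0 + q 1 * t + q 2 * t ^ 2 + q 3 * t ^ 3 + q 4 * t ^ 4) := by
          rw [← h]; ring
        rw [h7]
        field_simp
        ring
      rw [h5]
      refine Subalgebra.add_mem _ (Subalgebra.add_mem _ (Subalgebra.add_mem _ ?_ ?_) ?_) ?_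
      · exact m (k.mul_mem c2 hq0) (Subalgebra.mul_mem _ e1 e0)
      · exact m (k.mul_mem h32 hq1) (Subalgebra.pow_mem _ e1 _)
      · exact m hq2 (Subalgebra.mul_mem _ e1 e2)
      · exact m (k.mul_mem hhalf hq3) (Subalgebra.pow_mem _ e2 _)
    · show D (w / w) ∈ _
      rw [div_self hw, hD1]
      exact Subalgebra.zero_mem _

end

end Pool.Agent.CampanaDP
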