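import Pool.Agent.Lib_MP_1209e6_dp.Defs
import Pool.Agent.Lib_MP_1209e6_dp.Model
import Pool.Agent.Lib_MP_1209e6_fl.Defs

/-! PIECE HOMOG: the curve `w² = q(t)`, `deg q ≤ 4`, is almost homogeneous. -/

set_option autoImplicit false

open MvPolynomial Pool.Agent.CampanaFlow

namespace Pool.Agent.DP

/-- a derivation which vanishes on generators of a field vanishes -/
theorem der_zero_of_gen {L : Type} [Field L] [Algebra ℂ L] (s : Set L)
    (hgen : IntermediateField.adjoin ℂ s = ⊤) (F : Derivation ℂ L L) (h : ∀ a ∈ s, F a = 0) (u : L) :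
    F u = 0 := by
  have hu : u ∈ IntermediateField.adjoin ℂ s := by
    rw [hgen]
    exact IntermediateField.mem_top
  induction hu using IntermediateField.adjoin_induction with
  | mem x hx => exact h x hx
  | algebraMap r => exact Derivation.map_algebraMap F r
  | add x y _ _ hx hy => rw [map_add, hx, hy, add_zero]
  | inv x _ hx => rw [Derivation.leibniz_inv, hx, smul_zero]
  | mul x y _ _ hx hy => rw [Derivation.leibniz, hx, hy, smul_zero, smul_zero, add_zero]

/-- Model `[1 : t : t² : w]`; `D t = w`, `D w = q'(t) / 2`. Chart `0`: clear. Chart `1`: `D (1/t) = -w / t²`,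
`D (w/t) = q' / (2t) - q / t²`. Chart `2`: `D (1/t)`, `D (w/t²) = q' / (2t²) - 2 q / t³` (the coefficients of
`t` cancel). Chart `3`: `D (1/w) = - q' / (2 w²)`, `D (t/w) = (2q - t q') / (2 w²)`,
`D (t²/w) = (4 t q - t² q') / (2 w²)`, polynomials of degree `≤ 4` in `t` divided by `w²`. A derivation `E` of
`L` killing `k` is `(E t / w) D` (`L` is algebraic over `k(t)`). -/
theorem homogeneous {L : Type} [Field L] [Algebra ℂ L] (k : IntermediateField ℂ L) (t w : L)
    (q : Polynomial L) (hqk : ∀ n, q.coeff n ∈ k) (hq4 : q.natDegree ≤ 4) (ht : ¬ IsAlgebraic k t)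
    (hw : w ^ 2 = q.eval t) (hw0 : w ≠ 0)
    (hgen : IntermediateField.adjoin ℂ ((k : Set L) ∪ {t, w}) = ⊤)
    (D : Derivation ℂ L L) (hD : ∀ a ∈ k, D a = 0) (hDt : D t = w) :
    AlmostHomogeneous k (![1, t, t ^ 2, w] : Fin (3 + 1) → L) ∧
      GlobalField k (![1, t, t ^ 2, w] : Fin (3 + 1) → L) D := by
  have hL : CharZero L := charZero_of_injective_algebraMap (algebraMap ℂ L).injective
  have ht0 : t ≠ 0 := fun h => ht (h ▸ isAlgebraic_zero)
  have hw' : w ^ 2 = q.coeff 0 + q.coeff 1 * t + q.coeff 2 * t ^ 2 + q.coeff 3 * t ^ 3 +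
      q.coeff 4 * t ^ 4 := by
    rw [hw, Polynomial.eval_eq_sum_range' (Nat.lt_succ_of_le hq4)]
    simp [Finset.sum_range_succ]
  have hG : GlobalField k (![1, t, t ^ 2, w] : Fin (3 + 1) → L) D :=
    Pool.Agent.CampanaDP.dp_global k t w ht0 hw0 (fun i => q.coeff i) (fun i => hqk i) hw' D hD hDt
  refine ⟨⟨?_, ?_, ?_⟩, hG⟩
  · intro i
    fin_cases i
    · exact one_ne_zero
    · exact ht0
    · exact pow_ne_zero 2 ht0
    · exact hw0
  · rw [eq_top_iff, ← hgen, IntermediateField.adjoin_le_iff]
    rintro a (ha | ha | ha)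
    · exact IntermediateField.subset_adjoin _ _ (Or.inl ha)
    · refine IntermediateField.subset_adjoin _ _ (Or.inr ⟨1, ?_⟩)
      rw [ha]
      exact div_one t
    · refine IntermediateField.subset_adjoin _ _ (Or.inr ⟨3, ?_⟩)
      rw [Set.mem_singleton_iff.1 ha]
      exact div_one w
  · intro E hE
    have h1 : E = (E t / w) • D := by
      have h2 : ∀ u, (E - (E t / w) • D) u = 0 := by
        apply der_zero_of_gen _ hgen
        have hk : ∀ a ∈ k, (E - (E t / w) • D) a = 0 := by
          intro a ha
          rw [Derivation.sub_apply, Derivation.smul_apply, hE a ha, hD a ha, smul_zero, sub_zero]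
        have htt : (E - (E t / w) • D) t = 0 := by
          rw [Derivation.sub_apply, Derivation.smul_apply, hDt, smul_eq_mul, div_mul_cancel₀ _ hw0,
            sub_self]
        rintro a (ha | ha | ha)
        · exact hk a ha
        · rw [ha]
          exact htt
        · rw [Set.mem_singleton_iff.1 ha]
          have h3 := congrArg (E - (E t / w) • D) hw'
          simp only [map_add, Derivation.leibniz, Derivation.leibniz_pow, hk _ (hqk _), htt,
            smul_zero, add_zero, nsmul_eq_mul, smul_eq_mul, mul_zero] at h3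
          push_cast at h3
          have h4 : (2 : L) * w ≠ 0 := mul_ne_zero two_ne_zero hw0
          have h5 : (2 * w) * (E - (E t / w) • D) w = 0 := by
            rw [← h3]
            ring
          exact (mul_eq_zero.1 h5).resolve_left h4
      ext u
      exact sub_eq_zero.1 (h2 u)
    rw [h1]
    exact Submodule.smul_mem _ _ (Submodule.subset_span hG)

end Pool.Agent.DP
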