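import Pool.Agent.Lib_MP_1209e6_dp.PtInj

/-! PIECE EMBED: the family covers the double plane, in two conjugate ways. -/

set_option autoImplicit false

open MvPolynomial

namespace Pool.Agent.DP

/-- the value of `f` at the point of the tangent line is a square -/
theorem emb_sq {g : MvPolynomial (Fin 2) ℂ} {T : Tan g} {f : MvPolynomial (Fin 2) ℂ} (F : Fam T f) :
    (F.t * F.w) ^ 2 = aeval F.z f := by
  have h1 : (Polynomial.X ^ 2 * F.q).eval₂ (F.i : T.k →+* F.L) F.t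
      = (aeval T.pt f).eval₂ (F.i : T.k →+* F.L) F.t := by rw [F.hq]
  rw [Polynomial.eval₂_mul, Polynomial.eval₂_pow, Polynomial.eval₂_X, ← F.hw] at h1
  rw [mul_pow, h1]
  have h2 : ((Polynomial.eval₂RingHom (F.i : T.k →+* F.L) F.t).comp
      (aeval T.pt : MvPolynomial (Fin 2) ℂ →ₐ[ℂ] Polynomial T.k).toRingHom)
      = (aeval F.z : MvPolynomial (Fin 2) ℂ →ₐ[ℂ] F.L).toRingHom := by
    apply MvPolynomial.ringHom_ext
    · intro c
      simp [IsScalarTower.algebraMap_apply ℂ T.k (Polynomial T.k), Polynomial.algebraMap_eq]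
    · intro j
      simp only [Tan.pt, Fam.z, AlgHom.toRingHom_eq_coe, RingHom.coe_comp, RingHom.coe_coe, Function.comp_apply,
        aeval_X, Polynomial.coe_eval₂RingHom, Polynomial.eval₂_add, Polynomial.eval₂_mul, Polynomial.eval₂_C,
        Polynomial.eval₂_X]
  exact congrArg (fun φ : MvPolynomial (Fin 2) ℂ →+* F.L => φ f) h2

/-- a quadratic extension: `u = a + b w` -/
theorem emb_two {K : Type} [Field K] [Algebra ℂ K] (K₀ : IntermediateField ℂ K) (w : K)
    (hw2 : w ^ 2 ∈ K₀) (hgen : IntermediateField.adjoin ℂ ((K₀ : Set K) ∪ {w}) = ⊤) (u : K) :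
    ∃ a ∈ K₀, ∃ b ∈ K₀, u = a + b * w := by
  have hint : IsIntegral K₀ w := by
    refine ⟨Polynomial.X ^ 2 - Polynomial.C (⟨w ^ 2, hw2⟩ : K₀), Polynomial.monic_X_pow_sub_C _ two_ne_zero, ?_⟩
    simp
  have htop : IntermediateField.adjoin K₀ {w} = ⊤ := by
    rw [eq_top_iff]
    intro x _
    have hx : x ∈ IntermediateField.adjoin ℂ ((K₀ : Set K) ∪ {w}) := by rw [hgen]; trivial
    have hle : IntermediateField.adjoin ℂ ((K₀ : Set K) ∪ {w})
        ≤ (IntermediateField.adjoin K₀ {w}).restrictScalars ℂ := by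
      rw [IntermediateField.adjoin_le_iff]
      rintro y (hy | hy)
      · exact IntermediateField.algebraMap_mem (IntermediateField.adjoin K₀ {w}) (⟨y, hy⟩ : K₀)
      · rw [Set.mem_singleton_iff] at hy
        rw [hy]
        exact IntermediateField.mem_adjoin_simple_self K₀ w
    exact hle hx
  have hu : u ∈ Algebra.adjoin K₀ ({w} : Set K) := by
    rw [← IntermediateField.adjoin_simple_toSubalgebra_of_isAlgebraic hint.isAlgebraic, htop]
    trivial
  induction hu using Algebra.adjoin_induction with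
  | mem x hx =>
    rw [Set.mem_singleton_iff] at hx
    exact ⟨0, K₀.zero_mem, 1, K₀.one_mem, by rw [hx]; ring⟩
  | algebraMap r => exact ⟨r, r.2, 0, K₀.zero_mem, by rw [zero_mul, add_zero]; rfl⟩
  | add x y _ _ hx hy =>
    obtain ⟨a, ha, b, hb, rfl⟩ := hx
    obtain ⟨a', ha', b', hb', rfl⟩ := hy
    exact ⟨a + a', K₀.add_mem ha ha', b + b', K₀.add_mem hb hb', by ring⟩
  | mul x y _ _ hx hy =>
    obtain ⟨a, ha, b, hb, rfl⟩ := hx
    obtain ⟨a', ha', b', hb', rfl⟩ := hy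
    refine ⟨a * a' + b * b' * w ^ 2, K₀.add_mem (K₀.mul_mem ha ha') (K₀.mul_mem (K₀.mul_mem hb hb') hw2),
      a * b' + b * a', K₀.add_mem (K₀.mul_mem ha hb') (K₀.mul_mem hb ha'), by ring⟩

/-- extension of an embedding to a quadratic extension -/
theorem emb_lift {K M : Type} [Field K] [Algebra ℂ K] [Field M] [Algebra ℂ M] (K₀ : IntermediateField ℂ K)
    (w : K) (hw : w ∉ K₀) (hw2 : w ^ 2 ∈ K₀)
    (hgen : IntermediateField.adjoin ℂ ((K₀ : Set K) ∪ {w}) = ⊤)
    (φ : K₀ →ₐ[ℂ] M) (r : M) (hr : r ^ 2 = φ ⟨w ^ 2, hw2⟩) :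
    ∃ ι : K →ₐ[ℂ] M, (∀ a : K₀, ι a = φ a) ∧ ι w = r := by
  let _ : Algebra K₀ M := φ.toRingHom.toAlgebra
  have _ : IsScalarTower ℂ K₀ M := IsScalarTower.of_algebraMap_eq (fun c => (φ.commutes c).symm)
  set d : K₀ := ⟨w ^ 2, hw2⟩ with hd
  have hmonic : (Polynomial.X ^ 2 - Polynomial.C d : Polynomial K₀).Monic :=
    Polynomial.monic_X_pow_sub_C _ two_ne_zero
  have hroot : Polynomial.aeval w (Polynomial.X ^ 2 - Polynomial.C d : Polynomial K₀) = 0 := by
    simp [hd]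
  have hint : IsIntegral K₀ w := ⟨_, hmonic, by simpa using hroot⟩
  have hdvd : minpoly K₀ w ∣ (Polynomial.X ^ 2 - Polynomial.C d : Polynomial K₀) := minpoly.dvd _ _ hroot
  have hmp : minpoly K₀ w = Polynomial.X ^ 2 - Polynomial.C d := by
    have h2 : 2 ≤ (minpoly K₀ w).natDegree := by
      rw [minpoly.two_le_natDegree_iff hint]
      rintro ⟨x, hx⟩
      exact hw (by rw [← hx]; exact x.2)
    refine (Polynomial.eq_of_monic_of_dvd_of_natDegree_le (minpoly.monic hint) hmonic hdvd ?_).symm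
    rw [Polynomial.natDegree_X_pow_sub_C]
    exact h2
  have hfac : (minpoly K₀ w).map (algebraMap K₀ M)
      = (Polynomial.X - Polynomial.C r) * (Polynomial.X - Polynomial.C (-r)) := by
    rw [hmp]
    have h3 : (algebraMap K₀ M) d = r ^ 2 := hr.symm
    simp only [Polynomial.map_sub, Polynomial.map_pow, Polynomial.map_X, Polynomial.map_C, h3, map_neg,
      map_pow]
    ring
  have hsplit : ((minpoly K₀ w).map (algebraMap K₀ M)).Splits := by
    rw [hfac]
    exact (Polynomial.Splits.X_sub_C _).mul (Polynomial.Splits.X_sub_C _)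
  have htop : IntermediateField.adjoin K₀ {w} = ⊤ := by
    rw [eq_top_iff]
    intro x _
    have hx : x ∈ IntermediateField.adjoin ℂ ((K₀ : Set K) ∪ {w}) := by rw [hgen]; trivial
    have hle : IntermediateField.adjoin ℂ ((K₀ : Set K) ∪ {w})
        ≤ (IntermediateField.adjoin K₀ {w}).restrictScalars ℂ := by
      rw [IntermediateField.adjoin_le_iff]
      rintro y (hy | hy)
      · exact IntermediateField.algebraMap_mem (IntermediateField.adjoin K₀ {w}) (⟨y, hy⟩ : K₀)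
      · rw [Set.mem_singleton_iff] at hy
        rw [hy]
        exact IntermediateField.mem_adjoin_simple_self K₀ w
    exact hle hx
  have hy : Polynomial.aeval r (minpoly K₀ w) = 0 := by
    rw [Polynomial.aeval_def, ← Polynomial.eval_map, hfac]
    simp
  obtain ⟨ψ, hψ⟩ := IntermediateField.exists_algHom_of_adjoin_splits_of_aeval (F := K₀) (E := K) (K := M)
    (S := {w}) (fun s hs => by
      rw [Set.mem_singleton_iff] at hs
      subst hs
      exact ⟨hint, hsplit⟩) htop hy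
  refine ⟨ψ.restrictScalars ℂ, fun a => ?_, hψ⟩
  exact ψ.commutes a

/-- If `w ∉ ℂ(z)`, `K = ℂ(z)[W] / (W² - f(z))` and `ι₁ w = t w'`, `ι₂ w = - t w'` (both have the square
`f (F.z)`); if `w ∈ ℂ(z) = K`, `ι₁ = ι₂`. Every `u ∈ K` is `a + b w` with `a, b ∈ ℂ(z)`. -/
theorem exists_embed {g : MvPolynomial (Fin 2) ℂ} (hg : Irreducible g) {T : Tan g}
    {f : MvPolynomial (Fin 2) ℂ} (F : Fam T f)
    {K : Type} [Field K] [Algebra ℂ K] (z : Fin 2 → K) (w : K) (hz : AlgebraicIndependent ℂ z)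
    (hw : w ^ 2 = aeval z f) (hgen : IntermediateField.adjoin ℂ (Set.range z ∪ {w}) = ⊤) :
    ∃ ι₁ ι₂ : K →ₐ[ℂ] F.L, (∀ j, ι₁ (z j) = F.z j) ∧ (∀ j, ι₂ (z j) = F.z j) ∧
      ∀ u, ι₁ u + ι₂ u ∈ IntermediateField.adjoin ℂ (Set.range F.z) ∧
        ι₁ u * ι₂ u ∈ IntermediateField.adjoin ℂ (Set.range F.z) := by
  classical
  set K₀ := IntermediateField.adjoin ℂ (Set.range z) with hK₀
  set M₀ := IntermediateField.adjoin ℂ (Set.range F.z) with hM₀
  have hz' := z_indep hg F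
  let e : K₀ ≃ₐ[ℂ] M₀ := hz.aevalEquivField.symm.trans hz'.aevalEquivField
  let φ : K₀ →ₐ[ℂ] F.L := M₀.val.comp e.toAlgHom
  have hφM : ∀ a, φ a ∈ M₀ := fun a => (e a).2
  have hφp : ∀ (p : MvPolynomial (Fin 2) ℂ) (h : aeval z p ∈ K₀), φ ⟨aeval z p, h⟩ = aeval F.z p := by
    intro p h
    have h1 : hz.aevalEquivField (algebraMap _ _ p) = (⟨aeval z p, h⟩ : K₀) := by
      apply Subtype.ext
      exact hz.aevalEquivField_algebraMap_apply_coe p
    have h2 : e ⟨aeval z p, h⟩ = hz'.aevalEquivField (algebraMap _ _ p) := by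
      change hz'.aevalEquivField (hz.aevalEquivField.symm ⟨aeval z p, h⟩) = _
      rw [← h1, AlgEquiv.symm_apply_apply]
    change ((e ⟨aeval z p, h⟩ : M₀) : F.L) = _
    rw [h2]
    exact hz'.aevalEquivField_algebraMap_apply_coe p
  have hzK : ∀ j, z j ∈ K₀ := fun j => IntermediateField.subset_adjoin _ _ ⟨j, rfl⟩
  have hφz : ∀ j, φ ⟨z j, hzK j⟩ = F.z j := by
    intro j
    have := hφp (X j) (by rw [aeval_X]; exact hzK j)
    simpa only [aeval_X] using this
  have hpK : ∀ p : MvPolynomial (Fin 2) ℂ, aeval z p ∈ K₀ := by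
    intro p
    have h1 := (hz.aevalEquivField (algebraMap _ _ p)).2
    rw [hz.aevalEquivField_algebraMap_apply_coe p] at h1
    exact h1
  have hw2 : w ^ 2 ∈ K₀ := by rw [hw]; exact hpK f
  have hgen' : IntermediateField.adjoin ℂ ((K₀ : Set K) ∪ {w}) = ⊤ := by
    rw [eq_top_iff, ← hgen]
    refine IntermediateField.adjoin.mono ℂ _ _ (Set.union_subset_union_left _ ?_)
    exact IntermediateField.subset_adjoin _ _
  by_cases hwK : w ∈ K₀
  · have htop : K₀ = ⊤ := by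
      rw [eq_top_iff, ← hgen', IntermediateField.adjoin_le_iff]
      rintro y (hy | hy)
      · exact hy
      · rw [Set.mem_singleton_iff] at hy
        rw [hy]
        exact hwK
    have hall : ∀ u : K, u ∈ K₀ := fun u => by rw [htop]; trivial
    let j : K →ₐ[ℂ] K₀ := (AlgHom.id ℂ K).codRestrict K₀.toSubalgebra hall
    refine ⟨φ.comp j, φ.comp j, fun i => hφz i, fun i => hφz i, fun u => ⟨?_, ?_⟩⟩
    · exact M₀.add_mem (hφM _) (hφM _)
    · exact M₀.mul_mem (hφM _) (hφM _)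
  · have hsq : (F.t * F.w) ^ 2 = φ ⟨w ^ 2, hw2⟩ := by
      rw [emb_sq F, ← hφp f (hpK f)]
      congr 1
      apply Subtype.ext
      exact hw.symm
    obtain ⟨ι₁, h1, h1w⟩ := emb_lift K₀ w hwK hw2 hgen' φ (F.t * F.w) hsq
    obtain ⟨ι₂, h2, h2w⟩ := emb_lift K₀ w hwK hw2 hgen' φ (-(F.t * F.w)) (by rw [neg_sq]; exact hsq)
    refine ⟨ι₁, ι₂, fun i => (h1 ⟨z i, hzK i⟩).trans (hφz i), fun i => (h2 ⟨z i, hzK i⟩).trans (hφz i),
      fun u => ?_⟩
    obtain ⟨a, ha, b, hb, rfl⟩ := emb_two K₀ w hw2 hgen' u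
    have e1 : ι₁ (a + b * w) = φ ⟨a, ha⟩ + φ ⟨b, hb⟩ * (F.t * F.w) := by
      rw [map_add, map_mul, h1w, ← h1 ⟨a, ha⟩, ← h1 ⟨b, hb⟩]
    have e2 : ι₂ (a + b * w) = φ ⟨a, ha⟩ - φ ⟨b, hb⟩ * (F.t * F.w) := by
      rw [map_add, map_mul, h2w, ← h2 ⟨a, ha⟩, ← h2 ⟨b, hb⟩]
      ring
    constructor
    · have : ι₁ (a + b * w) + ι₂ (a + b * w) = φ ⟨a, ha⟩ + φ ⟨a, ha⟩ := by rw [e1, e2]; ring
      rw [this]
      exact M₀.add_mem (hφM _) (hφM _)
    · have : ι₁ (a + b * w) * ι₂ (a + b * w)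
          = φ ⟨a, ha⟩ ^ 2 - φ ⟨b, hb⟩ ^ 2 * φ ⟨w ^ 2, hw2⟩ := by rw [e1, e2, ← hsq]; ring
      rw [this]
      exact M₀.sub_mem (pow_mem (hφM _) 2) (M₀.mul_mem (pow_mem (hφM _) 2) (hφM _))

end Pool.Agent.DP
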