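import Mathlib

/-! Derivations and algebraic elements. -/

set_option autoImplicit false

namespace Pool.Agent.DP

/-- a derivation which kills a subfield kills the elements algebraic over it -/
theorem der_alg {L : Type} [Field L] [Algebra ℂ L] (k : IntermediateField ℂ L) (D : Derivation ℂ L L)
    (hD : ∀ a ∈ k, D a = 0) {a : L} (ha : IsAlgebraic k a) : D a = 0 := by
  let D' : Derivation k L L :=
    { toFun := D
      map_add' := fun x y => D.map_add x y
      map_smul' := fun c x => by
        rw [RingHom.id_apply, Algebra.smul_def c x, D.leibniz, show D (algebraMap k L c) = 0 from hD c c.2,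
          smul_zero, add_zero, Algebra.smul_def c (D x), smul_eq_mul]
      map_one_eq_zero' := D.map_one_eq_zero
      leibniz' := fun x y => D.leibniz x y }
  have hint : IsIntegral k a := ha.isIntegral
  have h1 : D' (Polynomial.aeval a (minpoly k a)) = Polynomial.aeval a (minpoly k a).derivative • D' a :=
    D'.map_aeval _ _
  rw [minpoly.aeval, map_zero] at h1
  have h2 : Polynomial.aeval a (minpoly k a).derivative ≠ 0 := by
    have hsep : (minpoly k a).Separable := (minpoly.irreducible hint).separable
    exact hsep.aeval_derivative_ne_zero (minpoly.aeval k a)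
  have h3 := smul_eq_zero.1 h1.symm
  exact h3.resolve_left h2

/-- an element of a field over `ℂ` whose conjugate sum and product are constants is a constant -/
theorem const_of_sum_prod {L : Type} [Field L] [Algebra ℂ L] {a b : L} {s p : ℂ}
    (hs : a + b = algebraMap ℂ L s) (hp : a * b = algebraMap ℂ L p) :
    ∃ c : ℂ, a = algebraMap ℂ L c := by
  have h1 : IsAlgebraic ℂ a := by
    refine ⟨Polynomial.X ^ 2 - Polynomial.C s * Polynomial.X + Polynomial.C p, ?_, ?_⟩
    · intro h
      have h2 := congrArg (fun P : Polynomial ℂ => P.coeff 2) h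
      simp [Polynomial.coeff_X, Polynomial.coeff_C] at h2
    · simp only [map_add, map_sub, map_pow, map_mul, Polynomial.aeval_X, Polynomial.aeval_C]
      rw [← hs, ← hp]
      ring
  have h2 : a ∈ (algebraMap ℂ L).range := by
    have h3 : IsIntegral ℂ a := h1.isIntegral
    have h4 := IsAlgClosed.degree_eq_one_of_irreducible ℂ (minpoly.irreducible h3)
    exact minpoly.mem_range_of_degree_eq_one ℂ a h4
  obtain ⟨c, hc⟩ := h2
  exact ⟨c, hc.symm⟩

end Pool.Agent.DP
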