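import Pool.Agent.Lib_MP_1209e6_dp.Neg

set_option autoImplicit false

open Pool.Agent.Campana Pool.Agent.AbPencil

namespace Pool.Agent.DP

/-- the binary form with zeros `-b i / a i` -/
noncomputable def negPoly {d : ℕ} (a b : Fin d → ℂ) : Polynomial ℂ :=
  ∏ i, (Polynomial.C (a i) * Polynomial.X + Polynomial.C (b i))

theorem neg_fac_ne {a b : ℂ} (h : a ≠ 0 ∨ b ≠ 0) :
    Polynomial.C a * Polynomial.X + Polynomial.C b ≠ 0 := by
  intro h0
  have h1 := congrArg (fun p => Polynomial.coeff p 1) h0
  have h2 := congrArg (fun p => Polynomial.coeff p 0) h0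
  simp at h1 h2
  rcases h with h | h
  · exact h h1
  · exact h h2

theorem negPoly_squarefree {d : ℕ} (a b : Fin d → ℂ) (hne : ∀ i, a i ≠ 0 ∨ b i ≠ 0)
    (h : ∀ i j, i ≠ j → a i * b j ≠ a j * b i) : Squarefree (negPoly a b) := by
  classical
  unfold negPoly
  refine Finset.squarefree_prod_of_pairwise_isCoprime ?_ ?_
  · intro i _ j _ hij
    have h1 : a j * b i - a i * b j ≠ 0 := fun h0 => h i j hij (by linear_combination -h0)
    refine IsCoprime.isRelPrime ⟨Polynomial.C (a j / (a j * b i - a i * b j)),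
      Polynomial.C (-(a i) / (a j * b i - a i * b j)), ?_⟩
    have h2 : a j / (a j * b i - a i * b j) * a i + -(a i) / (a j * b i - a i * b j) * a j = 0 := by
      field_simp
      ring
    have h3 : a j / (a j * b i - a i * b j) * b i + -(a i) / (a j * b i - a i * b j) * b j = 1 := by
      field_simp
      ring
    calc Polynomial.C (a j / (a j * b i - a i * b j)) *
          (Polynomial.C (a i) * Polynomial.X + Polynomial.C (b i)) +
        Polynomial.C (-(a i) / (a j * b i - a i * b j)) *
          (Polynomial.C (a j) * Polynomial.X + Polynomial.C (b j)) =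
        Polynomial.C (a j / (a j * b i - a i * b j) * a i +
          -(a i) / (a j * b i - a i * b j) * a j) * Polynomial.X +
        Polynomial.C (a j / (a j * b i - a i * b j) * b i +
          -(a i) / (a j * b i - a i * b j) * b j) := by
          simp only [Polynomial.C_add, Polynomial.C_mul]
          ring
      _ = 1 := by rw [h2, h3]; simp
  · intro i _
    by_cases h0 : a i = 0
    · have h1 : b i ≠ 0 := (hne i).resolve_left (not_not.2 h0)
      rw [h0, Polynomial.C_0, zero_mul, zero_add]
      exact (Polynomial.isUnit_C.2 (isUnit_iff_ne_zero.2 h1)).squarefree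
    · exact (Polynomial.irreducible_of_degree_eq_one
        (Polynomial.degree_linear h0)).squarefree

theorem negPoly_natDegree {a b : Fin 6 → ℂ} (hne : ∀ i, a i ≠ 0 ∨ b i ≠ 0)
    (h : ∀ i j, i ≠ j → a i * b j ≠ a j * b i) : 5 ≤ (negPoly a b).natDegree := by
  classical
  have h1 : (negPoly a b).natDegree = ∑ i, (if a i = 0 then 0 else 1) := by
    unfold negPoly
    rw [Polynomial.natDegree_prod _ _ fun i _ => neg_fac_ne (hne i)]
    refine Finset.sum_congr rfl fun i _ => ?_
    split_ifs with h0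
    · rw [h0, Polynomial.C_0, zero_mul, zero_add, Polynomial.natDegree_C]
    · exact Polynomial.natDegree_linear h0
  rw [h1]
  have h2 : (Finset.univ.filter fun i => a i = 0).card ≤ 1 := by
    rw [Finset.card_le_one]
    intro i hi j hj
    by_contra hij
    have h3 := (Finset.mem_filter.1 hi).2
    have h4 := (Finset.mem_filter.1 hj).2
    apply h i j hij
    rw [h3, h4, zero_mul, zero_mul]
  have h3 := Finset.card_filter_add_card_filter_not (s := (Finset.univ : Finset (Fin 6)))
    (fun i => a i = 0)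
  have h4 : ∑ i, (if a i = 0 then 0 else 1) =
      ((Finset.univ : Finset (Fin 6)).filter fun i => ¬ a i = 0).card := by
    rw [Finset.card_filter]
    refine Finset.sum_congr rfl fun i _ => ?_
    by_cases h0 : a i = 0 <;> simp [h0]
  rw [h4]
  simp only [Finset.card_univ, Fintype.card_fin] at h3
  omega

theorem aeval_negPoly {K : Type} [Field K] [Algebra ℂ K] {d : ℕ} (a b : Fin d → ℂ) (T : K) :
    Polynomial.aeval T (negPoly a b) = ∏ i, (algebraMap ℂ K (a i) * T + algebraMap ℂ K (b i)) := by
  unfold negPoly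
  rw [map_prod]
  simp

/-- Six members of a pencil: `w² = c h² ∏ (a_i x + b_i y)`. -/
theorem neg_six {m : ℕ} (P : Ideal (MvPolynomial (Fin (m + 1)) ℂ)) [P.IsPrime] (hP : IsVariety P)
    (x y h w : FunField P) (hxy : Transcendental ℂ (x / y)) (hh : h ≠ 0) (c : ℂ) (hc : c ≠ 0)
    (a b : Fin 6 → ℂ) (hab : ∀ i j, i ≠ j → a i * b j ≠ a j * b i)
    (hw : w ^ 2 = algebraMap ℂ _ c * h ^ 2 * ∏ i, (algebraMap ℂ _ (a i) * x + algebraMap ℂ _ (b i) * y)) :
    ¬ SpecialField (FunField P) ∧ ¬ BrodySpecial P := by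
  have hne : ∀ i, a i ≠ 0 ∨ b i ≠ 0 := by
    intro i
    by_contra h0
    push Not at h0
    have h1 : ∃ j : Fin 6, i ≠ j := by
      by_cases hi : i = 0
      · exact ⟨1, by rw [hi]; decide⟩
      · exact ⟨0, hi⟩
    obtain ⟨j, hj⟩ := h1
    apply hab i j hj
    rw [h0.1, h0.2, zero_mul, mul_zero]
  have hy : y ≠ 0 := by
    intro h0
    rw [h0, div_zero] at hxy
    exact hxy isAlgebraic_zero
  obtain ⟨s, hs⟩ := IsAlgClosed.exists_pow_nat_eq c (n := 2) (by norm_num)
  have hs0 : algebraMap ℂ (FunField P) s ≠ 0 := by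
    intro h0
    have h1 : s = 0 := by simpa using h0
    rw [h1, zero_pow two_ne_zero] at hs
    exact hc hs.symm
  refine neg_hyper P hP (x / y) (w / (algebraMap ℂ _ s * h * y ^ 3)) hxy (negPoly a b)
    (negPoly_squarefree a b hne hab) (negPoly_natDegree hne hab) ?_
  rw [aeval_negPoly, div_pow, hw, div_eq_iff (pow_ne_zero _ (mul_ne_zero (mul_ne_zero hs0 hh)
    (pow_ne_zero _ hy)))]
  have h1 : ∏ i, (algebraMap ℂ (FunField P) (a i) * x + algebraMap ℂ _ (b i) * y) =
      (∏ i, (algebraMap ℂ (FunField P) (a i) * (x / y) + algebraMap ℂ _ (b i))) * y ^ 6 := by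
    have h2 : y ^ 6 = ∏ _i : Fin 6, y := by simp
    rw [h2, ← Finset.prod_mul_distrib]
    refine Finset.prod_congr rfl fun i _ => ?_
    field_simp
  rw [h1, ← hs, map_pow]
  ring

end Pool.Agent.DP
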