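import Pool.Agent.Lib_MP_1209e6_dp.Defs

/-! PIECE PTINJ: polynomials on the generic tangent line. -/

set_option autoImplicit false

open MvPolynomial

namespace Pool.Agent.DP

theorem pti_deg (i : Fin 2) (p : MvPolynomial (Fin 2) ℂ) (n : ℕ) (hn : p.totalDegree ≤ n + 1) :
    (pderiv i p).totalDegree ≤ n := by
  refine Finset.sup_le fun m hm => ?_
  have hc : coeff (m + Finsupp.single i 1) p ≠ 0 := by
    intro h0
    rw [MvPolynomial.mem_support_iff, coeff_pderiv, h0, zero_mul] at hm
    exact hm rfl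
  have h3 := le_totalDegree (MvPolynomial.mem_support_iff.2 hc)
  have h4 : ((m + Finsupp.single i 1).sum fun _ e => e) = (m.sum fun _ e => e) + 1 := by
    rw [Finsupp.sum_add_index' (fun _ => rfl) (fun _ _ _ => rfl),
      Finsupp.sum_single_index rfl]
  omega

theorem pti_const (h : MvPolynomial (Fin 2) ℂ) (hd : ∀ j, pderiv j h = 0) :
    ∃ c : ℂ, h = C c := by
  refine ⟨coeff 0 h, ?_⟩
  ext m
  rw [coeff_C]
  by_cases hm : (0 : Fin 2 →₀ ℕ) = m
  · rw [if_pos hm, hm]
  · rw [if_neg hm]
    obtain ⟨j, hj⟩ : ∃ j, m j ≠ 0 := by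
      by_contra hcon
      push Not at hcon
      exact hm (Finsupp.ext fun j => (hcon j).symm)
    have e : m - Finsupp.single j 1 + Finsupp.single j 1 = m := by
      refine tsub_add_cancel_of_le ?_
      rw [Finsupp.single_le_iff]
      omega
    have h1 := coeff_pderiv (i := j) h (m - Finsupp.single j 1)
    rw [hd j, coeff_zero, e] at h1
    have h2 : (((m - Finsupp.single j 1 : Fin 2 →₀ ℕ) j : ℂ) + 1) ≠ 0 := by
      exact Nat.cast_add_one_ne_zero _
    rcases mul_eq_zero.1 h1.symm with h3 | h3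
    · exact h3
    · exact absurd h3 h2

theorem pti_chain {A : Type} [CommRing A] [Algebra ℂ A] (D : Derivation ℂ A A) (z : Fin 2 → A)
    (h : MvPolynomial (Fin 2) ℂ) :
    D (aeval z h) = aeval z (pderiv 0 h) * D (z 0) + aeval z (pderiv 1 h) * D (z 1) := by
  induction h using MvPolynomial.induction_on with
  | C c =>
    rw [aeval_C, Derivation.map_algebraMap, pderiv_C, pderiv_C, map_zero]
    ring
  | add p q hp hq =>
    rw [map_add, map_add, hp, hq, map_add, map_add, map_add, map_add]
    ring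
  | mul_X p i hp =>
    rw [map_mul, aeval_X, Derivation.leibniz, hp, pderiv_mul, pderiv_mul, map_add, map_add,
      map_mul, map_mul, map_mul, map_mul, aeval_X, smul_eq_mul, smul_eq_mul]
    fin_cases i
    · simp [pderiv_X]
      ring
    · simp [pderiv_X]
      ring

/-- the derivation of `k[X]` which acts on the coefficients -/
noncomputable def ptiD {k : Type} [Field k] [Algebra ℂ k] (δ : Derivation ℂ k k) :
    Derivation ℂ (Polynomial k) (Polynomial k) :=
  PolynomialModule.equivPolynomialSelf.toLinearMap.compDer δ.mapCoeffs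

theorem ptiD_C {k : Type} [Field k] [Algebra ℂ k] (δ : Derivation ℂ k k) (a : k) :
    ptiD δ (Polynomial.C a) = Polynomial.C (δ a) := by
  show PolynomialModule.equivPolynomialSelf (δ.mapCoeffs (Polynomial.C a)) = _
  rw [Derivation.mapCoeffs_C, PolynomialModule.equivPolynomialSelf_apply_eq,
    PolynomialModule.equivPolynomial_single, Polynomial.monomial_zero_left]

theorem ptiD_X {k : Type} [Field k] [Algebra ℂ k] (δ : Derivation ℂ k k) :
    ptiD δ Polynomial.X = 0 := by
  unfold ptiD
  simp

/-- the derivation `d/dX` of `k[X]` -/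
noncomputable def ptiX {k : Type} [Field k] [Algebra ℂ k] :
    Derivation ℂ (Polynomial k) (Polynomial k) :=
  (Polynomial.derivative' (R := k)).restrictScalars ℂ

theorem pti_main {g : MvPolynomial (Fin 2) ℂ} (T : Tan g) (n : ℕ) :
    ∀ h : MvPolynomial (Fin 2) ℂ, h.totalDegree ≤ n → aeval T.pt h = 0 → h = 0 := by
  induction n with
  | zero =>
    intro h hn h0
    rw [totalDegree_eq_zero_iff_eq_C.1 (Nat.le_zero.1 hn)] at h0 ⊢
    rw [aeval_C] at h0
    rw [(map_eq_zero_iff _ (algebraMap ℂ (Polynomial T.k)).injective).1 h0, map_zero]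
  | succ n ih =>
    intro h hn h0
    have e1 := pti_chain (ptiX (k := T.k)) T.pt h
    have e2 := pti_chain (ptiD T.δ) T.pt h
    rw [h0, map_zero] at e1 e2
    have x1 : ∀ j, ptiX (k := T.k) (T.pt j) = Polynomial.C (T.v j) := by
      intro j
      show Polynomial.derivative (T.pt j) = _
      simp [Tan.pt]
    have x2 : ∀ j, ptiD T.δ (T.pt j) = Polynomial.C (T.v j) +
        Polynomial.X * Polynomial.C (T.δ (T.v j)) := by
      intro j
      rw [Tan.pt, map_add, Derivation.leibniz, ptiD_C, ptiD_C, ptiD_X, T.δb]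
      simp
    rw [x1, x1] at e1
    rw [x2, x2] at e2
    set a := aeval T.pt (pderiv 0 h) with ha
    set b := aeval T.pt (pderiv 1 h) with hb
    have e3 : a * Polynomial.C (T.δ (T.v 0)) + b * Polynomial.C (T.δ (T.v 1)) = 0 := by
      have : Polynomial.X * (a * Polynomial.C (T.δ (T.v 0)) + b * Polynomial.C (T.δ (T.v 1))) = 0 := by
        linear_combination e1 - e2
      exact (mul_eq_zero.1 this).resolve_left Polynomial.X_ne_zero
    have hdet : T.v 0 * T.δ (T.v 1) - T.v 1 * T.δ (T.v 0) ≠ 0 := by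
      intro h1
      apply T.δm
      rw [Derivation.leibniz_div]
      simp only [smul_eq_mul]
      rw [h1, mul_zero]
    have hdet' : Polynomial.C (T.v 0 * T.δ (T.v 1) - T.v 1 * T.δ (T.v 0)) ≠ 0 :=
      Polynomial.C_ne_zero.2 hdet
    have ea : a = 0 := by
      have : Polynomial.C (T.v 0 * T.δ (T.v 1) - T.v 1 * T.δ (T.v 0)) * a = 0 := by
        rw [Polynomial.C_sub, Polynomial.C_mul, Polynomial.C_mul]
        linear_combination -Polynomial.C (T.δ (T.v 1)) * e1 - Polynomial.C (T.v 1) * e3
      exact (mul_eq_zero.1 this).resolve_left hdet'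
    have eb : b = 0 := by
      have : Polynomial.C (T.v 0 * T.δ (T.v 1) - T.v 1 * T.δ (T.v 0)) * b = 0 := by
        rw [Polynomial.C_sub, Polynomial.C_mul, Polynomial.C_mul]
        linear_combination Polynomial.C (T.δ (T.v 0)) * e1 + Polynomial.C (T.v 0) * e3
      exact (mul_eq_zero.1 this).resolve_left hdet'
    have h1 : pderiv 0 h = 0 := ih _ (pti_deg 0 h n hn) ea
    have h2 : pderiv 1 h = 0 := ih _ (pti_deg 1 h n hn) eb
    obtain ⟨c, hc⟩ := pti_const h (by
      intro j
      fin_cases j
      · exact h1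
      · exact h2)
    rw [hc] at h0 ⊢
    rw [aeval_C] at h0
    rw [(map_eq_zero_iff _ (algebraMap ℂ (Polynomial T.k)).injective).1 h0, map_zero]

/-- the restriction of a nonzero polynomial to the generic tangent line is not zero: `h = g^e h'` with
`g ∤ h'`, the constant coefficient of `h' (b + X v)` is `h' (b) ≠ 0`, and `g (b + X v) ≠ 0` because its
coefficient of `X^d` (`d` the total degree) is the leading form of `g` at `v`, that is `v_0^d g_d(1, m)`, and
`m` is transcendental over `ℂ` (`δ m ≠ 0`). -/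
theorem pt_inj {g : MvPolynomial (Fin 2) ℂ} (_hg : Irreducible g) (T : Tan g)
    (h : MvPolynomial (Fin 2) ℂ) (hh : h ≠ 0) : aeval T.pt h ≠ 0 :=
  fun h0 => hh (pti_main T _ h le_rfl h0)

theorem pti_eval {g : MvPolynomial (Fin 2) ℂ} {T : Tan g} {f : MvPolynomial (Fin 2) ℂ}
    (F : Fam T f) (h : MvPolynomial (Fin 2) ℂ) :
    (aeval T.pt h).eval₂ (F.i : T.k →+* F.L) F.t = aeval F.z h := by
  induction h using MvPolynomial.induction_on with
  | C c =>
    rw [aeval_C, aeval_C, IsScalarTower.algebraMap_apply ℂ T.k (Polynomial T.k),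
      Polynomial.algebraMap_apply]
    simp
  | add p q hp hq => rw [map_add, map_add, Polynomial.eval₂_add, hp, hq]
  | mul_X p j hp =>
    rw [map_mul, map_mul, aeval_X, aeval_X, Polynomial.eval₂_mul, hp]
    congr 1
    simp [Tan.pt, Fam.z]
    exact mul_comm _ _

theorem z_indep {g : MvPolynomial (Fin 2) ℂ} (_hg : Irreducible g) {T : Tan g}
    {f : MvPolynomial (Fin 2) ℂ} (F : Fam T f) : AlgebraicIndependent ℂ F.z := by
  rw [algebraicIndependent_iff]
  intro p hp
  by_contra hne
  refine hne (pti_main T _ p le_rfl (F.t_trans _ ?_))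
  rw [pti_eval, hp]

end Pool.Agent.DP
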