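import Pool.Agent.Lib_MP_1209e6_dp.Slope
import Pool.Agent.Lib_MP_1209e6_dp.PtInj

/-! PIECE CONST: rational functions on the plane which are constant on the tangent lines. -/

set_option autoImplicit false

open MvPolynomial

namespace Pool.Agent.DP

theorem const_dvd_pderiv (h : MvPolynomial (Fin 2) ℂ) (j : Fin 2) (hd : h ∣ pderiv j h) :
    pderiv j h = 0 := by
  by_contra hne
  have h1 : h.totalDegree ≤ (pderiv j h).totalDegree :=
    totalDegree_le_of_dvd_of_isDomain hd hne
  have hs : (pderiv j h).support.Nonempty := by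
    rw [Finset.nonempty_iff_ne_empty]
    intro h0
    exact hne (MvPolynomial.support_eq_empty.1 h0)
  obtain ⟨m, hm, hme⟩ := Finset.exists_mem_eq_sup (pderiv j h).support hs
    (fun s : Fin 2 →₀ ℕ => s.sum fun _ e => e)
  have h2 : (pderiv j h).totalDegree = m.sum fun _ e => e := hme
  have hc : coeff (m + Finsupp.single j 1) h ≠ 0 := by
    intro h0
    rw [MvPolynomial.mem_support_iff, coeff_pderiv, h0, zero_mul] at hm
    exact hm rfl
  have h3 := le_totalDegree (MvPolynomial.mem_support_iff.2 hc)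
  have h4 : ((m + Finsupp.single j 1).sum fun _ e => e) = (m.sum fun _ e => e) + 1 := by
    rw [Finsupp.sum_add_index' (fun _ => rfl) (fun _ _ _ => rfl),
      Finsupp.sum_single_index rfl]
  omega

theorem const_of_pderiv (h : MvPolynomial (Fin 2) ℂ) (hd : ∀ j, pderiv j h = 0) :
    ∃ c : ℂ, h = C c := by
  refine ⟨coeff 0 h, ?_⟩
  ext m
  rw [coeff_C]
  by_cases hm : (0 : Fin 2 →₀ ℕ) = m
  · rw [if_pos hm, hm]
  · rw [if_neg hm]
    obtain ⟨j, hj⟩ : ∃ j, m j ≠ 0 := by
      by_contra hcon
      push Not at hcon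
      exact hm (Finsupp.ext fun j => (hcon j).symm)
    have e : m - Finsupp.single j 1 + Finsupp.single j 1 = m := by
      refine tsub_add_cancel_of_le ?_
      rw [Finsupp.single_le_iff]
      omega
    have h1 := coeff_pderiv (i := j) h (m - Finsupp.single j 1)
    rw [hd j, coeff_zero, e] at h1
    have h2 : (((m - Finsupp.single j 1 : Fin 2 →₀ ℕ) j : ℂ) + 1) ≠ 0 := by
      exact Nat.cast_add_one_ne_zero _
    rcases mul_eq_zero.1 h1.symm with h3 | h3
    · exact h3
    · exact absurd h3 h2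

theorem const_chain {L : Type} [Field L] [Algebra ℂ L] (D : Derivation ℂ L L) (z : Fin 2 → L)
    (h : MvPolynomial (Fin 2) ℂ) :
    D (aeval z h) = aeval z (pderiv 0 h) * D (z 0) + aeval z (pderiv 1 h) * D (z 1) := by
  induction h using MvPolynomial.induction_on with
  | C c =>
    rw [aeval_C, Derivation.map_algebraMap, pderiv_C, pderiv_C, map_zero]
    ring
  | add p q hp hq =>
    rw [map_add, map_add, hp, hq, map_add, map_add, map_add, map_add]
    ring
  | mul_X p i hp =>
    rw [map_mul, aeval_X, Derivation.leibniz, hp, pderiv_mul, pderiv_mul, map_add, map_add,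
      map_mul, map_mul, map_mul, map_mul, aeval_X, smul_eq_mul, smul_eq_mul]
    fin_cases i
    · simp [pderiv_X]
      ring
    · simp [pderiv_X]
      ring

theorem const_eval {g : MvPolynomial (Fin 2) ℂ} {T : Tan g} {f : MvPolynomial (Fin 2) ℂ}
    (F : Fam T f) (h : MvPolynomial (Fin 2) ℂ) :
    (aeval T.pt h).eval₂ (F.i : T.k →+* F.L) F.t = aeval F.z h := by
  induction h using MvPolynomial.induction_on with
  | C c =>
    rw [aeval_C, aeval_C, Polynomial.algebraMap_apply, Polynomial.eval₂_C]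
    exact F.i.commutes c
  | add p q hp hq => rw [map_add, Polynomial.eval₂_add, hp, hq, map_add]
  | mul_X p i hp =>
    rw [map_mul, Polynomial.eval₂_mul, hp, map_mul, aeval_X, aeval_X]
    congr 1
    unfold Tan.pt Fam.z
    rw [Polynomial.eval₂_add, Polynomial.eval₂_C, Polynomial.eval₂_mul, Polynomial.eval₂_X,
      Polynomial.eval₂_C]
    rfl

/-- `a = A(z) / B(z)`; `D a = 0` gives `P(z) + m Q(z) = 0` with `P = A_x B - A B_x`, `Q = A_y B - A B_y`
(`D (z j) = w i(v j)`, `w ≠ 0`). If `Q ≠ 0`: `no_slope` (`t` is transcendental over `k`). If `Q = 0`: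
`P = 0`, `A / B` is constant. -/
theorem const_of_D {g : MvPolynomial (Fin 2) ℂ} (hg : Irreducible g) {T : Tan g}
    {f : MvPolynomial (Fin 2) ℂ} (F : Fam T f) (hw : F.w ≠ 0) (a : F.L)
    (ha : a ∈ IntermediateField.adjoin ℂ (Set.range F.z)) (hD : F.D a = 0) :
    ∃ c : ℂ, a = algebraMap ℂ F.L c := by
  rw [IntermediateField.mem_adjoin_range_iff] at ha
  obtain ⟨A₀, B₀, hab⟩ := ha
  by_cases hBz : aeval F.z B₀ = 0
  · exact ⟨0, by rw [hab, hBz, div_zero, map_zero]⟩
  have hB₀ : B₀ ≠ 0 := by
    rintro rfl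
    exact hBz (map_zero _)
  obtain ⟨A, B, G, hrel, hA, hB⟩ := UniqueFactorizationMonoid.exists_reduced_factors' A₀ B₀ hB₀
  have hGz : aeval F.z G ≠ 0 := by
    intro h0
    rw [← hB, map_mul, h0, zero_mul] at hBz
    exact hBz rfl
  have hBz' : aeval F.z B ≠ 0 := by
    intro h0
    rw [← hB, map_mul, h0, mul_zero] at hBz
    exact hBz rfl
  have hab' : a * aeval F.z B = aeval F.z A := by
    rw [hab, ← hA, ← hB, map_mul, map_mul]
    field_simp
  -- the derivative
  have hDz : ∀ j, F.D (F.z j) = F.w * F.i (T.v j) := by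
    intro j
    unfold Fam.z
    rw [map_add, F.Di, zero_add, Derivation.leibniz, F.Di, F.Dt, smul_zero, zero_add, smul_eq_mul,
      mul_comm]
  have h1 : a * F.D (aeval F.z B) = F.D (aeval F.z A) := by
    rw [← hab', Derivation.leibniz, hD, smul_zero, add_zero, smul_eq_mul]
  have h2 : aeval F.z A * F.D (aeval F.z B) = F.D (aeval F.z A) * aeval F.z B := by
    rw [← h1, ← hab']
    ring
  rw [const_chain, const_chain, hDz, hDz] at h2
  have hv0 : F.i (T.v 0) ≠ 0 := by
    intro h0
    exact T.v_ne ((map_eq_zero F.i).1 h0)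
  set P : MvPolynomial (Fin 2) ℂ := pderiv 0 A * B - A * pderiv 0 B with hP
  set Q : MvPolynomial (Fin 2) ℂ := pderiv 1 A * B - A * pderiv 1 B with hQ
  have h3 : aeval F.z P * F.i (T.v 0) + aeval F.z Q * F.i (T.v 1) = 0 := by
    have : F.w * (aeval F.z P * F.i (T.v 0) + aeval F.z Q * F.i (T.v 1)) = 0 := by
      rw [hP, hQ, map_sub, map_sub, map_mul, map_mul, map_mul, map_mul]
      linear_combination -h2
    exact (mul_eq_zero.1 this).resolve_left hw
  have h4 : F.i (T.v 1 / T.v 0) * aeval F.z Q = aeval F.z (-P) := by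
    rw [map_div₀, map_neg]
    field_simp
    linear_combination h3
  have h5 : Polynomial.C (T.v 1 / T.v 0) * aeval T.pt Q = aeval T.pt (-P) := by
    rw [← sub_eq_zero]
    refine F.t_trans _ ?_
    rw [Polynomial.eval₂_sub, Polynomial.eval₂_mul, Polynomial.eval₂_C, const_eval, const_eval,
      sub_eq_zero]
    exact h4
  have hQ0 : Q = 0 := by
    by_contra hQ0
    exact no_slope T (pt_inj hg T) (-P) Q hQ0 h5
  have hP0 : P = 0 := by
    by_contra hP0
    refine pt_inj hg T (-P) (neg_ne_zero.2 hP0) ?_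
    rw [← h5, hQ0, map_zero, mul_zero]
  have hBd : ∀ j, pderiv j B = 0 := by
    intro j
    apply const_dvd_pderiv
    have h6 : B ∣ A * pderiv j B := by
      refine ⟨pderiv j A, ?_⟩
      fin_cases j
      · simp only [Fin.zero_eta]
        linear_combination -(hP.symm.trans hP0)
      · simp only [Fin.mk_one]
        linear_combination -(hQ.symm.trans hQ0)
    exact hrel.symm.dvd_of_dvd_mul_left h6
  have hAd : ∀ j, pderiv j A = 0 := by
    intro j
    apply const_dvd_pderiv
    have h6 : A ∣ B * pderiv j A := by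
      refine ⟨pderiv j B, ?_⟩
      fin_cases j
      · simp only [Fin.zero_eta]
        linear_combination (hP.symm.trans hP0)
      · simp only [Fin.mk_one]
        linear_combination (hQ.symm.trans hQ0)
    exact hrel.dvd_of_dvd_mul_left h6
  obtain ⟨β, hβ⟩ := const_of_pderiv B hBd
  obtain ⟨α, hα⟩ := const_of_pderiv A hAd
  refine ⟨α / β, ?_⟩
  rw [hα, hβ, aeval_C, aeval_C] at hab'
  have hβ0 : algebraMap ℂ F.L β ≠ 0 := by
    rw [hβ, aeval_C] at hBz'
    exact hBz'
  rw [map_div₀, eq_div_iff hβ0]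
  exact hab'

end Pool.Agent.DP
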