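import Pool.Agent.Lib_MP_1209e6_dp.Defs
import Pool.Agent.Lib_MP_1209e6_ag.Der

/-! PIECE FAMF: the family of double covers of the tangent lines. -/

set_option autoImplicit false

open MvPolynomial

namespace Pool.Agent.DP

/-- an algebraically closed field with an element transcendental over `k` -/
theorem famf_big (k : Type) [Field k] :
    ∃ (Ω : Type) (_ : Field Ω) (_ : Algebra k Ω) (t : Ω), IsAlgClosed Ω ∧ Transcendental k t := by
  refine ⟨AlgebraicClosure (RatFunc k), inferInstance, inferInstance,
    algebraMap (RatFunc k) (AlgebraicClosure (RatFunc k)) RatFunc.X, inferInstance, ?_⟩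
  exact (transcendental_algebraMap_iff
    (algebraMap (RatFunc k) (AlgebraicClosure (RatFunc k))).injective).2 RatFunc.transcendental_X

/-- the construction for an arbitrary field `k` -/
theorem famf_aux (k : Type) [Field k] [Algebra ℂ k] (q : Polynomial k) :
    ∃ (L : Type) (_ : Field L) (_ : Algebra ℂ L) (i : k →ₐ[ℂ] L) (t w : L),
      (∀ P : Polynomial k, P.eval₂ (i : k →+* L) t = 0 → P = 0) ∧
      w ^ 2 = q.eval₂ (i : k →+* L) t ∧
      IntermediateField.adjoin ℂ (Set.range i ∪ {t, w}) = ⊤ ∧
      ∃ D : Derivation ℂ L L, (∀ a, D (i a) = 0) ∧ D t = w := by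
  have : CharZero k := charZero_of_injective_algebraMap (algebraMap ℂ k).injective
  obtain ⟨Ω, _, _, T, _, hT⟩ := famf_big k
  obtain ⟨W, hW⟩ := IsAlgClosed.exists_pow_nat_eq (Polynomial.aeval T q) (n := 2) (by norm_num)
  let M : IntermediateField k Ω := IntermediateField.adjoin k {T, W}
  have hTM : T ∈ M := IntermediateField.subset_adjoin _ _ (by simp)
  have hWM : W ∈ M := IntermediateField.subset_adjoin _ _ (by simp)
  let t : M := ⟨T, hTM⟩
  let w : M := ⟨W, hWM⟩
  let _ : Algebra ℂ M := ((algebraMap k M).comp (algebraMap ℂ k)).toAlgebra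
  have : IsScalarTower ℂ k M := IsScalarTower.of_algebraMap_eq' rfl
  have htr : Transcendental k t := by
    intro h
    apply hT
    obtain ⟨p, hp0, hp⟩ := h
    refine ⟨p, hp0, ?_⟩
    have h1 := congrArg (algebraMap M Ω) hp
    rw [map_zero, ← Polynomial.aeval_algebraMap_apply] at h1
    exact h1
  have hind : AlgebraicIndependent k (fun _ : Unit => t) := by
    rw [algebraicIndependent_unique_type_iff]
    exact htr
  obtain ⟨D, hD⟩ := Pool.Agent.Campana.exists_derivation (k := k) (K := M) _ hind (fun _ => w)
  refine ⟨M, inferInstance, inferInstance, IsScalarTower.toAlgHom ℂ k M, t, w, ?_, ?_, ?_,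
    D.restrictScalars ℂ, ?_, hD ()⟩
  · intro P hP
    by_contra h0
    exact htr ⟨P, h0, hP⟩
  · apply (algebraMap M Ω).injective
    rw [map_pow]
    change W ^ 2 = _
    rw [hW]
    change _ = algebraMap M Ω (Polynomial.aeval t q)
    rw [← Polynomial.aeval_algebraMap_apply]
    rfl
  · have hmem : ∀ (x : Ω) (hx : x ∈ M), (⟨x, hx⟩ : M) ∈
        IntermediateField.adjoin ℂ (Set.range (IsScalarTower.toAlgHom ℂ k M) ∪ {t, w}) := by
      intro x hx
      induction hx using IntermediateField.adjoin_induction with
      | mem x hx =>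
        apply IntermediateField.subset_adjoin
        right
        rcases hx with hx | hx
        · left
          exact Subtype.ext hx
        · right
          exact Subtype.ext hx
      | algebraMap c =>
        apply IntermediateField.subset_adjoin
        left
        exact ⟨c, rfl⟩
      | add x y hx hy h1 h2 => exact add_mem h1 h2
      | inv x hx h1 => exact inv_mem h1
      | mul x y hx hy h1 h2 => exact mul_mem h1 h2
    rw [eq_top_iff]
    intro x _
    exact hmem x.1 x.2
  · intro a
    exact D.map_algebraMap a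

/-- `L` = the field generated over `k(t)` (`RatFunc k`) by a square root `w` of `q(t)` in an algebraic
closure; `D` extends `w ∂_t` (derivations extend to finite extensions: `ext_along` in `nt/Reduce` or
`k3/Galois`). -/
theorem exists_fam {g : MvPolynomial (Fin 2) ℂ} (T : Tan g) (f : MvPolynomial (Fin 2) ℂ)
    (q : Polynomial T.k) (hq : Polynomial.X ^ 2 * q = aeval T.pt f) : ∃ F : Fam T f, F.q = q := by
  obtain ⟨L, _, _, i, t, w, ht, hw, hgen, D, hDi, hDt⟩ := famf_aux T.k q
  exact ⟨⟨q, hq, L, i, t, w, ht, hw, hgen, D, hDi, hDt⟩, rfl⟩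

end Pool.Agent.DP
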