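import Pool.Agent.Lib_MP_1209e6_dp.Defs

/-! PIECE FAMQ: the restriction of `f` to the tangent line is divisible by `X²`. -/

set_option autoImplicit false

open MvPolynomial

namespace Pool.Agent.DP

private theorem famq_eval0 {g : MvPolynomial (Fin 2) ℂ} (T : Tan g) (h : MvPolynomial (Fin 2) ℂ) :
    (aeval T.pt h).eval 0 = aeval T.b h := by
  induction h using MvPolynomial.induction_on with
  | C a =>
    rw [MvPolynomial.aeval_C, MvPolynomial.aeval_C, Polynomial.algebraMap_apply, Polynomial.eval_C]
  | add p q hp hq => simp only [map_add, Polynomial.eval_add, hp, hq]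
  | mul_X p i hp =>
    rw [map_mul, map_mul, Polynomial.eval_mul, hp, MvPolynomial.aeval_X, MvPolynomial.aeval_X]
    congr 1
    simp [Tan.pt]

private theorem famq_deriv {g : MvPolynomial (Fin 2) ℂ} (T : Tan g) (h : MvPolynomial (Fin 2) ℂ) :
    Polynomial.derivative (aeval T.pt h) =
      aeval T.pt (pderiv 0 h) * Polynomial.C (T.v 0) + aeval T.pt (pderiv 1 h) * Polynomial.C (T.v 1) := by
  induction h using MvPolynomial.induction_on with
  | C a =>
    rw [MvPolynomial.aeval_C, Polynomial.algebraMap_apply, Polynomial.derivative_C, pderiv_C, pderiv_C]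
    simp
  | add p q hp hq =>
    simp only [map_add, hp, hq]
    ring
  | mul_X p i hp =>
    have hd : Polynomial.derivative (T.pt i) = Polynomial.C (T.v i) := by
      simp [Tan.pt]
    rw [map_mul, Polynomial.derivative_mul, hp, MvPolynomial.aeval_X, hd, Derivation.leibniz,
      Derivation.leibniz, pderiv_X, pderiv_X]
    fin_cases i
    · simp
      ring
    · simp
      ring

/-- the first two coefficients of `g (b + X v)` vanish, its degree is at most `totalDegree` -/
theorem exists_q {g : MvPolynomial (Fin 2) ℂ} (T : Tan g) (f : MvPolynomial (Fin 2) ℂ) (hgf : g ∣ f)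
    (h6 : f.totalDegree ≤ 6) :
    ∃ q : Polynomial T.k, Polynomial.X ^ 2 * q = aeval T.pt f ∧ q.natDegree ≤ 4 := by
  have hg0 : aeval T.b g = 0 := (T.ker g).2 dvd_rfl
  have h0 : (aeval T.pt f).coeff 0 = 0 := by
    rw [Polynomial.coeff_zero_eq_eval_zero, famq_eval0]
    exact (T.ker f).2 hgf
  have h1 : (aeval T.pt f).coeff 1 = 0 := by
    have e : (aeval T.pt f).coeff 1 = (Polynomial.derivative (aeval T.pt f)).eval 0 := by
      rw [← Polynomial.coeff_zero_eq_eval_zero, Polynomial.coeff_derivative]
      simp
    rw [e, famq_deriv, Polynomial.eval_add, Polynomial.eval_mul, Polynomial.eval_mul, Polynomial.eval_C,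
      Polynomial.eval_C, famq_eval0, famq_eval0]
    obtain ⟨h, rfl⟩ := hgf
    rw [Derivation.leibniz, Derivation.leibniz]
    simp only [smul_eq_mul, map_add, map_mul, hg0, zero_mul, zero_add, T.v_zero, T.v_one]
    ring
  have hdvd : Polynomial.X ^ 2 ∣ aeval T.pt f := by
    rw [Polynomial.X_pow_dvd_iff]
    intro d hd
    interval_cases d
    · exact h0
    · exact h1
  have hdeg : (aeval T.pt f).natDegree ≤ 6 := by
    have e : aeval T.pt f = aeval T.pt (MvPolynomial.map (algebraMap ℂ T.k) f) := by
      rw [MvPolynomial.aeval_map_algebraMap]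
    rw [e]
    have := MvPolynomial.aeval_natDegree_le (MvPolynomial.map (algebraMap ℂ T.k) f)
      ((Finset.sup_mono (MvPolynomial.support_map_subset _ _)).trans h6) T.pt (n := 1) (fun i => by
        unfold Tan.pt
        compute_degree)
    simpa using this
  obtain ⟨q, hq⟩ := hdvd
  refine ⟨q, hq.symm, ?_⟩
  by_cases hq0 : q = 0
  · simp [hq0]
  · rw [hq, Polynomial.natDegree_mul (pow_ne_zero 2 Polynomial.X_ne_zero) hq0,
      Polynomial.natDegree_X_pow] at hdeg
    omega

end Pool.Agent.DP
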