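import Pool.Agent.Lib_MP_1209e6_dp.PtInj

/-! PIECE FIN: the function field of the family is finite over that of the double plane. -/

set_option autoImplicit false

open MvPolynomial

namespace Pool.Agent.DP

theorem fin_deriv {R : Type*} [CommRing R] [Algebra ℂ R] (a : R) (h : MvPolynomial (Fin 2) ℂ) :
    Polynomial.derivative (aeval ![Polynomial.C a, Polynomial.X] h) =
      aeval ![Polynomial.C a, Polynomial.X] (pderiv 1 h) := by
  induction h using MvPolynomial.induction_on with
  | C c =>
    rw [pderiv_C, map_zero, aeval_C, Polynomial.algebraMap_apply, Polynomial.derivative_C]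
  | add p q hp hq => rw [map_add, map_add, map_add, map_add, hp, hq]
  | mul_X p j hp =>
    rw [map_mul, Polynomial.derivative_mul, hp, Derivation.leibniz, map_add, smul_eq_mul,
      smul_eq_mul, map_mul, map_mul, aeval_X]
    fin_cases j
    · simp [pderiv_X, mul_comm]
    · simp [pderiv_X]
      ring

variable {g : MvPolynomial (Fin 2) ℂ} {T : Tan g} {f : MvPolynomial (Fin 2) ℂ}

/-- an intermediate field which contains the images of the coordinates contains the image of `k` -/
theorem fin_range (F : Fam T f) (M : IntermediateField ℂ F.L) (h : ∀ j, F.i (T.b j) ∈ M) (a : T.k) :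
    F.i a ∈ M := by
  have h1 : IntermediateField.adjoin ℂ (Set.range T.b) ≤ M.comap F.i := by
    rw [IntermediateField.adjoin_le_iff]
    rintro _ ⟨j, rfl⟩
    exact h j
  rw [T.gen] at h1
  exact h1 (IntermediateField.mem_top : a ∈ (⊤ : IntermediateField ℂ T.k))

theorem fin_top (F : Fam T f) (M : IntermediateField ℂ F.L) (h : ∀ j, F.i (T.b j) ∈ M)
    (ht : F.t ∈ M) (hw : F.w ∈ M) : M = ⊤ := by
  rw [eq_top_iff, ← F.gen, IntermediateField.adjoin_le_iff]
  rintro x (⟨a, rfl⟩ | hx)
  · exact fin_range F M h a
  · rcases hx with rfl | hx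
    · exact ht
    · rw [Set.mem_singleton_iff] at hx
      rw [hx]
      exact hw

theorem fin_alg (F : Fam T f) :
    Algebra.IsAlgebraic (IntermediateField.adjoin ℂ {F.i (T.b 0), F.t}) F.L := by
  let E := IntermediateField.adjoin ℂ ({F.i (T.b 0), F.t} : Set F.L)
  change Algebra.IsAlgebraic E F.L
  let M : IntermediateField ℂ F.L := (algebraicClosure E F.L).restrictScalars ℂ
  have hM : ∀ x, x ∈ M ↔ IsAlgebraic E x := fun x => by
    show x ∈ algebraicClosure E F.L ↔ _
    exact mem_algebraicClosure_iff
  have hE : ∀ x ∈ E, x ∈ M := fun x hx => (hM x).2 (isAlgebraic_algebraMap (⟨x, hx⟩ : E))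
  have h0 : F.i (T.b 0) ∈ E :=
    IntermediateField.subset_adjoin _ _ (Set.mem_insert _ _)
  have ht : F.t ∈ E :=
    IntermediateField.subset_adjoin _ _ (Set.mem_insert_of_mem _ rfl)
  have h1 : F.i (T.b 1) ∈ M := by
    rw [hM]
    let P : Polynomial E := aeval ![Polynomial.C (⟨F.i (T.b 0), h0⟩ : E), Polynomial.X] g
    have key : ∀ h : MvPolynomial (Fin 2) ℂ, Polynomial.aeval (F.i (T.b 1))
        (aeval ![Polynomial.C (⟨F.i (T.b 0), h0⟩ : E), Polynomial.X] h) = F.i (aeval T.b h) := by
      intro h
      have e1 : ((Polynomial.aeval (F.i (T.b 1)) : Polynomial E →ₐ[E] F.L).restrictScalars ℂ).comp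
          (aeval ![Polynomial.C (⟨F.i (T.b 0), h0⟩ : E), Polynomial.X]) = F.i.comp (aeval T.b) := by
        apply MvPolynomial.algHom_ext
        intro j
        fin_cases j
        · simp
        · simp
      exact DFunLike.congr_fun e1 h
    refine ⟨P, ?_, ?_⟩
    · intro hP
      have h2 := key (pderiv 1 g)
      rw [← fin_deriv] at h2
      change Polynomial.aeval (F.i (T.b 1)) (Polynomial.derivative P) = _ at h2
      rw [hP, map_zero, map_zero, ← T.v_zero] at h2
      exact T.v_ne ((map_eq_zero F.i).1 h2.symm)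
    · have h2 := key g
      rw [(T.ker g).2 dvd_rfl, map_zero] at h2
      exact h2
  have hb : ∀ j, F.i (T.b j) ∈ M := by
    intro j
    fin_cases j
    · exact hE _ h0
    · exact h1
  have hq : F.q.eval₂ (F.i : T.k →+* F.L) F.t ∈ M := by
    rw [Polynomial.eval₂_eq_sum_range]
    refine sum_mem fun n _ => mul_mem ?_ (pow_mem (hE _ ht) _)
    exact fin_range F M hb _
  have hw : F.w ∈ M := by
    rw [hM]
    rw [← F.hw, hM] at hq
    exact hq.of_pow (by norm_num)
  have htop := fin_top F M hb (hE _ ht) hw
  refine ⟨fun x => (hM x).1 ?_⟩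
  rw [htop]
  exact IntermediateField.mem_top

open scoped IntermediateField.algebraAdjoinAdjoin in
theorem fin_trdeg (F : Fam T f) : Algebra.trdeg ℂ F.L ≤ 2 := by
  have h := fin_alg F
  have h2 : Algebra.IsAlgebraic (Algebra.adjoin ℂ ({F.i (T.b 0), F.t} : Set F.L)) F.L :=
    (IsFractionRing.comap_isAlgebraic_iff
      (K := IntermediateField.adjoin ℂ ({F.i (T.b 0), F.t} : Set F.L))).2 h
  refine (Algebra.IsAlgebraic.trdeg_le_cardinalMk ℂ ({F.i (T.b 0), F.t} : Set F.L)).trans ?_
  refine (Cardinal.mk_insert_le).trans ?_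
  rw [Cardinal.mk_singleton]
  norm_num

/-- `L` is finitely generated of transcendence degree two (`w` is algebraic over `k(t)`, `k` has
transcendence degree one), and `F.z` is algebraically independent. -/
theorem finite_embed {g : MvPolynomial (Fin 2) ℂ} (hg : Irreducible g) {T : Tan g}
    {f : MvPolynomial (Fin 2) ℂ} (F : Fam T f)
    {K : Type} [Field K] [Algebra ℂ K] [Algebra K F.L] [IsScalarTower ℂ K F.L] (z : Fin 2 → K)
    (hι : ∀ j, algebraMap K F.L (z j) = F.z j) : FiniteDimensional K F.L := by
  have hz : IsTranscendenceBasis ℂ F.z :=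
    (z_indep hg F).isTranscendenceBasis_of_trdeg_le_of_finite (by
      rw [Cardinal.mk_fin]
      exact_mod_cast fin_trdeg F)
  have halg := hz.isAlgebraic_field
  let E := IntermediateField.adjoin ℂ (Set.range F.z)
  let ψ : K →ₐ[ℂ] F.L := IsScalarTower.toAlgHom ℂ K F.L
  have hle : E ≤ ψ.fieldRange := by
    rw [IntermediateField.adjoin_le_iff]
    rintro _ ⟨j, rfl⟩
    exact ⟨z j, hι j⟩
  obtain ⟨φ, hφ⟩ : ∃ φ : E →+* K, ∀ c : E, algebraMap K F.L (φ c) = c := by
    refine ⟨(ψ.equivFieldRange.symm : ψ.fieldRange →+* K).comp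
      (IntermediateField.inclusion hle : E →+* ψ.fieldRange), fun c => ?_⟩
    exact congrArg Subtype.val
      (ψ.equivFieldRange.apply_symm_apply (IntermediateField.inclusion hle c))
  have hint : ∀ x : F.L, IsIntegral K x := by
    intro x
    obtain ⟨p, hp0, hp⟩ := (halg.isAlgebraic x : IsAlgebraic E x)
    refine IsAlgebraic.isIntegral ⟨p.map φ, ?_, ?_⟩
    · rwa [Ne, Polynomial.map_eq_zero_iff φ.injective]
    · rw [Polynomial.aeval_def, Polynomial.eval₂_map]
      have hc : (algebraMap K F.L).comp φ = algebraMap E F.L := RingHom.ext hφ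
      rw [hc]
      exact hp
  let S : Set F.L := {F.i (T.b 0), F.i (T.b 1), F.t, F.w}
  have hS : Finite S := by
    have : S.Finite := by simp [S]
    exact this
  have h1 : FiniteDimensional K (IntermediateField.adjoin K S) :=
    IntermediateField.finiteDimensional_adjoin fun x _ => hint x
  have h2 : IntermediateField.adjoin K S = ⊤ := by
    have h3 := fin_top F ((IntermediateField.adjoin K S).restrictScalars ℂ) (fun j => by
      refine IntermediateField.subset_adjoin K S ?_
      fin_cases j <;> simp [S]) (IntermediateField.subset_adjoin K S (by simp [S]))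
      (IntermediateField.subset_adjoin K S (by simp [S]))
    rw [eq_top_iff]
    intro x _
    have : x ∈ (IntermediateField.adjoin K S).restrictScalars ℂ := by
      rw [h3]
      exact IntermediateField.mem_top
    exact this
  rw [h2] at h1
  exact IntermediateField.topEquiv.toLinearEquiv.finiteDimensional

end Pool.Agent.DP
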