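import Pool.Agent.Lib_MP_1209e6_dp.Defs

/-! The function field of a double plane has transcendence degree two. -/

set_option autoImplicit false

open MvPolynomial

namespace Pool.Agent.DP

open scoped IntermediateField.algebraAdjoinAdjoin in
/-- the function field of a double plane has transcendence degree two -/
theorem trdeg_doublePlane {f : MvPolynomial (Fin 2) ℂ} {K : Type} [Field K] [Algebra ℂ K]
    (hK : IsDoublePlane K f) : Algebra.trdeg ℂ K = 2 := by
  obtain ⟨z, w, hz, hw, hg⟩ := hK
  let F0 := IntermediateField.adjoin ℂ (Set.range z)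
  let S : IntermediateField ℂ K := (algebraicClosure F0 K).restrictScalars ℂ
  have hF : ∀ x ∈ F0, x ∈ S := by
    intro x hx
    change x ∈ algebraicClosure F0 K
    rw [mem_algebraicClosure_iff]
    exact isAlgebraic_algebraMap (⟨x, hx⟩ : F0)
  have hzS : ∀ j, z j ∈ S := fun j => hF _ (IntermediateField.subset_adjoin _ _ ⟨j, rfl⟩)
  have hwS : w ∈ S := by
    have h1 : aeval z f ∈ S.toSubalgebra := by
      have h2 : aeval z f ∈ Algebra.adjoin ℂ (Set.range z) := by
        rw [Algebra.adjoin_range_eq_range_aeval]
        exact ⟨f, rfl⟩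
      have h3 : Algebra.adjoin ℂ (Set.range z) ≤ S.toSubalgebra := by
        rw [Algebra.adjoin_le_iff]
        rintro _ ⟨j, rfl⟩
        exact hzS j
      exact h3 h2
    rw [← hw] at h1
    have h4 : IsAlgebraic F0 (w ^ 2) := by
      have h5 : w ^ 2 ∈ algebraicClosure F0 K := h1
      rwa [mem_algebraicClosure_iff] at h5
    change w ∈ algebraicClosure F0 K
    rw [mem_algebraicClosure_iff]
    exact h4.of_pow (by norm_num)
  have htop : S = ⊤ := by
    rw [eq_top_iff, ← hg, IntermediateField.adjoin_le_iff]
    rintro a (⟨j, rfl⟩ | rfl)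
    · exact hzS j
    · exact hwS
  have halg : Algebra.IsAlgebraic F0 K := by
    refine ⟨fun x => ?_⟩
    have h1 : x ∈ S := by rw [htop]; exact IntermediateField.mem_top
    have h2 : x ∈ algebraicClosure F0 K := h1
    rwa [mem_algebraicClosure_iff] at h2
  have halg2 : Algebra.IsAlgebraic (Algebra.adjoin ℂ (Set.range z)) K :=
    (IsFractionRing.comap_isAlgebraic_iff (K := IntermediateField.adjoin ℂ (Set.range z))).2 halg
  have hb : IsTranscendenceBasis ℂ z := hz.isTranscendenceBasis_iff_isAlgebraic.2 halg2
  have h := hb.cardinalMk_eq_trdeg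
  rw [← h, Cardinal.mk_fin]
  norm_num

end Pool.Agent.DP
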