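import Pool.Agent.Lib_MP_1209e6_dp.TanOf
import Pool.Agent.Lib_MP_1209e6_dp.FamQ
import Pool.Agent.Lib_MP_1209e6_dp.FamOf
import Pool.Agent.Lib_MP_1209e6_dp.Homog
import Pool.Agent.Lib_MP_1209e6_dp.Embed
import Pool.Agent.Lib_MP_1209e6_dp.FinEmbed
import Pool.Agent.Lib_MP_1209e6_dp.Const
import Pool.Agent.Lib_MP_1209e6_dp.TrDeg
import Pool.Agent.Lib_MP_1209e6_dp.DerAlg
import Pool.Agent.Lib_MP_1209e6_k3.Main

/-! PIECE MAIN: double planes. -/

set_option autoImplicit false

open MvPolynomial Pool.Agent.Campana Pool.Agent.CampanaFlow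

namespace Pool.Agent.DP

/-- the base field of the family -/
noncomputable def Fam.base {g : MvPolynomial (Fin 2) ℂ} {T : Tan g} {f : MvPolynomial (Fin 2) ℂ}
    (F : Fam T f) : IntermediateField ℂ F.L := F.i.fieldRange

theorem Fam.mem_base {g : MvPolynomial (Fin 2) ℂ} {T : Tan g} {f : MvPolynomial (Fin 2) ℂ}
    (F : Fam T f) {a : F.L} : a ∈ F.base ↔ ∃ x, F.i x = a := Iff.rfl

theorem Fam.D_base {g : MvPolynomial (Fin 2) ℂ} {T : Tan g} {f : MvPolynomial (Fin 2) ℂ}
    (F : Fam T f) : ∀ a ∈ F.base, F.D a = 0 := by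
  rintro a ⟨x, rfl⟩
  exact F.Di x

/-- the family is almost homogeneous -/
theorem Fam.homog {g : MvPolynomial (Fin 2) ℂ} {T : Tan g} {f : MvPolynomial (Fin 2) ℂ}
    (F : Fam T f) (h4 : F.q.natDegree ≤ 4) (hw : F.w ≠ 0) :
    AlmostHomogeneous F.base (![1, F.t, F.t ^ 2, F.w] : Fin (3 + 1) → F.L) := by
  refine (homogeneous F.base F.t F.w (F.q.map (F.i : T.k →+* F.L)) ?_ ?_ ?_ ?_ hw ?_ F.D F.D_base
    F.Dt).1
  · intro n
    rw [Polynomial.coeff_map]
    exact ⟨_, rfl⟩
  · exact Polynomial.natDegree_map_le.trans h4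
  · rintro ⟨P, hP0, hP⟩
    have hex : ∃ Q : Polynomial T.k, Q.map (F.i : T.k →+* F.L) = P.map (algebraMap F.base F.L) := by
      have hmem : P.map (algebraMap F.base F.L) ∈
          Polynomial.lifts (F.i : T.k →+* F.L) := by
        rw [Polynomial.lifts_iff_coeff_lifts]
        intro n
        rw [Polynomial.coeff_map]
        obtain ⟨x, hx⟩ := (P.coeff n).2
        exact ⟨x, hx⟩
      exact (Polynomial.mem_lifts _).1 hmem
    obtain ⟨Q, hQ⟩ := hex
    have h1 : Q.eval₂ (F.i : T.k →+* F.L) F.t = 0 := by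
      rw [← Polynomial.eval_map, hQ, Polynomial.eval_map]
      exact hP
    have h2 := F.t_trans Q h1
    rw [h2, Polynomial.map_zero] at hQ
    exact hP0 ((Polynomial.map_eq_zero _).1 hQ.symm)
  · rw [Polynomial.eval_map]
    exact F.hw
  · have h := F.gen
    have hset : ((F.base : IntermediateField ℂ F.L) : Set F.L) = Set.range F.i := rfl
    rw [hset]
    exact h

/-- `special_covers` and `brody_surface` for finitely many embeddings into one field -/
theorem two_cover {n : ℕ} (P : Ideal (MvPolynomial (Fin (n + 1)) ℂ)) [P.IsPrime] (hP : IsVariety P)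
    (htr : Algebra.trdeg ℂ (FunField P) = 2) {L : Type} [iL : Field L] [aL : Algebra ℂ L] {r : ℕ}
    (ι : Fin r → FunField P →ₐ[ℂ] L)
    (hfin : ∀ i, @Module.Finite (FunField P) L _ _ ((ι i).toRingHom.toAlgebra).toModule)
    (k : IntermediateField ℂ L) {N : ℕ} (x : Fin (N + 1) → L) (h : AlmostHomogeneous k x)
    (hc : ∀ u : FunField P, (∀ i, IsAlgebraic k (ι i u)) → ∃ c : ℂ, u = algebraMap ℂ (FunField P) c) :
    SpecialField (FunField P) ∧ BrodySpecial P := by
  have htow : ∀ i, @IsScalarTower ℂ (FunField P) L _ ((ι i).toRingHom.toAlgebra).toSMul _ := by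
    intro i
    letI : Algebra (FunField P) L := (ι i).toRingHom.toAlgebra
    exact IsScalarTower.of_algebraMap_eq fun c => ((ι i).commutes c).symm
  exact ⟨@Pool.Agent.K3.special_covers (FunField P) _ _ (funField_fg P) r (fun _ => L) (fun _ => iL)
      (fun _ => aL) (fun i => (ι i).toRingHom.toAlgebra) htow hfin (fun _ => k) (fun _ => N)
      (fun _ => x) (fun _ => h) hc,
    @Pool.Agent.K3.brody_surface n P _ hP htr r (fun _ => L) (fun _ => iL)
      (fun _ => aL) (fun i => (ι i).toRingHom.toAlgebra) htow hfin (fun _ => k) (fun _ => N)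
      (fun _ => x) (fun _ => h) hc⟩

/-- assembly: `exists_tan`, `exists_q`, `exists_fam` (`w ≠ 0` since `f ≠ 0`, `pt_inj`), `homogeneous` for the
field `F.i.fieldRange`, `exists_embed`, `finite_embed`, two families with `L = F.L` and the algebra
structures `ι₁`, `ι₂`; `special_covers`, `brody_surface`. First integrals: `u` with `ι₁ u`, `ι₂ u` algebraic
over `k`: sum and product are killed by `D` and lie in `ℂ(F.z)`: constants (`const_of_D`), so `ι₁ u` is
algebraic over `ℂ`. -/
theorem double_plane {f g : MvPolynomial (Fin 2) ℂ} (hg : Irreducible g) (h2 : 2 ≤ g.totalDegree)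
    (hgf : g ∣ f) (hf0 : f ≠ 0) (h6 : f.totalDegree ≤ 6) {n : ℕ}
    (P : Ideal (MvPolynomial (Fin (n + 1)) ℂ)) [P.IsPrime] (hP : IsVariety P)
    (hK : IsDoublePlane (FunField P) f) : SpecialField (FunField P) ∧ BrodySpecial P := by
  have htr := trdeg_doublePlane hK
  obtain ⟨T⟩ := exists_tan g hg h2
  obtain ⟨q, hq, hq4⟩ := exists_q T f hgf h6
  obtain ⟨F, hFq⟩ := exists_fam T f q hq
  obtain ⟨z, w, hz, hw, hgen⟩ := hK
  have hq0 : F.q ≠ 0 := by
    intro h
    have h1 := F.hq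
    rw [h, mul_zero] at h1
    exact pt_inj hg T f hf0 h1.symm
  have hw0 : F.w ≠ 0 := by
    intro h
    have h1 := F.hw
    rw [h, zero_pow two_ne_zero] at h1
    exact hq0 (F.t_trans _ h1.symm)
  have hhom := F.homog (by rw [hFq]; exact hq4) hw0
  obtain ⟨ι₁, ι₂, hι₁, hι₂, hsum⟩ := exists_embed hg F z w hz hw hgen
  let ι : Fin 2 → FunField P →ₐ[ℂ] F.L := ![ι₁, ι₂]
  have hι : ∀ i j, ι i (z j) = F.z j := by
    intro i
    fin_cases i
    · exact hι₁
    · exact hι₂
  refine two_cover P hP htr ι ?_ F.base (![1, F.t, F.t ^ 2, F.w] : Fin (3 + 1) → F.L) hhom ?_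
  · intro i
    letI : Algebra (FunField P) F.L := (ι i).toRingHom.toAlgebra
    haveI : IsScalarTower ℂ (FunField P) F.L :=
      IsScalarTower.of_algebraMap_eq fun c => ((ι i).commutes c).symm
    exact finite_embed hg F z fun j => hι i j
  · intro u hu
    have h0 : IsAlgebraic F.base (ι₁ u) := hu 0
    have h1 : IsAlgebraic F.base (ι₂ u) := hu 1
    obtain ⟨s, hs⟩ := const_of_D hg F hw0 (ι₁ u + ι₂ u) (hsum u).1
      (der_alg F.base F.D F.D_base (h0.add h1))
    obtain ⟨p, hp⟩ := const_of_D hg F hw0 (ι₁ u * ι₂ u) (hsum u).2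
      (der_alg F.base F.D F.D_base (h0.mul h1))
    obtain ⟨c, hc⟩ := const_of_sum_prod hs hp
    refine ⟨c, ι₁.toRingHom.injective ?_⟩
    exact hc.trans (ι₁.commutes c).symm

end Pool.Agent.DP
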