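import Mathlib

/-!
# Double planes: definitions

`MP_1209e6_ag`: the tangent lines of the branch curve of the double plane `w² = f(x, y)` give a covering
family of curves of genus at most one.
-/

set_option autoImplicit false

open MvPolynomial

namespace Pool.Agent.DP

/-- the plane curve `g = 0` with its function field `k`, generic point `b`, tangent vector `v`, and the
derivation `δ` of `k` with `δ b = v`; the slope `v 1 / v 0` of the tangent line is not constant. -/
structure Tan (g : MvPolynomial (Fin 2) ℂ) where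
  k : Type
  [fk : Field k]
  [ak : Algebra ℂ k]
  b : Fin 2 → k
  v : Fin 2 → k
  δ : Derivation ℂ k k
  ker : ∀ h : MvPolynomial (Fin 2) ℂ, aeval b h = 0 ↔ g ∣ h
  gen : IntermediateField.adjoin ℂ (Set.range b) = ⊤
  v_zero : v 0 = aeval b (pderiv 1 g)
  v_one : v 1 = - aeval b (pderiv 0 g)
  δb : ∀ i, δ (b i) = v i
  v_ne : v 0 ≠ 0
  δm : δ (v 1 / v 0) ≠ 0

attribute [instance] Tan.fk Tan.ak

/-- the generic point `b + X v` of the tangent line -/
noncomputable def Tan.pt {g : MvPolynomial (Fin 2) ℂ} (T : Tan g) (i : Fin 2) : Polynomial T.k :=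
  Polynomial.C (T.b i) + Polynomial.X * Polynomial.C (T.v i)

/-- the family of double covers `w² = q(t)` of the tangent lines, where `f(b + t v) = t² q(t)`, and the
derivation `w ∂_t` of its function field `L = k(t, w)` -/
structure Fam {g : MvPolynomial (Fin 2) ℂ} (T : Tan g) (f : MvPolynomial (Fin 2) ℂ) where
  q : Polynomial T.k
  hq : Polynomial.X ^ 2 * q = aeval T.pt f
  L : Type
  [fL : Field L]
  [aL : Algebra ℂ L]
  i : T.k →ₐ[ℂ] L
  t : L
  w : L
  t_trans : ∀ P : Polynomial T.k, P.eval₂ (i : T.k →+* L) t = 0 → P = 0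
  hw : w ^ 2 = q.eval₂ (i : T.k →+* L) t
  gen : IntermediateField.adjoin ℂ (Set.range i ∪ {t, w}) = ⊤
  D : Derivation ℂ L L
  Di : ∀ a, D (i a) = 0
  Dt : D t = w

attribute [instance] Fam.fL Fam.aL

/-- the point of the plane on the tangent line -/
def Fam.z {g : MvPolynomial (Fin 2) ℂ} {T : Tan g} {f : MvPolynomial (Fin 2) ℂ} (F : Fam T f) (j : Fin 2) : F.L :=
  F.i (T.b j) + F.t * F.i (T.v j)

/-- `K = ℂ(z 0, z 1, w)` is the function field of the double plane `w² = f(z 0, z 1)` -/
def IsDoublePlane (K : Type) [Field K] [Algebra ℂ K] (f : MvPolynomial (Fin 2) ℂ) : Prop :=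
  ∃ (z : Fin 2 → K) (w : K), AlgebraicIndependent ℂ z ∧ w ^ 2 = aeval z f ∧
    IntermediateField.adjoin ℂ (Set.range z ∪ {w}) = ⊤

end Pool.Agent.DP
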