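import Pool.Agent.Lib_MP_1209e6_sp.N5
import Pool.Agent.Lib_MP_1209e6_sp.P2

/-! Double covers dominating a hyperelliptic curve of genus at least two are neither special nor Brody-special. -/

set_option autoImplicit false

open Pool.Agent.Campana Pool.Agent.AbPencil

namespace Pool.Agent.DP

section Ord

variable {K : Type} [Field K] [Algebra ℂ K]

theorem neg_const {O : ValuationSubring K} {v : K → ℤ} (hO : IsPlace O) (hv : IsOrd O v) {c : ℂ}
    (hc : c ≠ 0) : v (algebraMap ℂ K c) = 0 := by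
  have h0 : algebraMap ℂ K c ≠ 0 := by simpa using hc
  have h1 := (hv.mem_iff h0).1 (hO.1 c)
  have h2 := hO.1 c⁻¹
  rw [map_inv₀] at h2
  have h3 := (hv.mem_iff (inv_ne_zero h0)).1 h2
  rw [hv.map_inv h0] at h3
  omega

/-- a function of positive order plus a nonzero constant is a unit -/
theorem neg_unit {O : ValuationSubring K} {v : K → ℤ} (hO : IsPlace O) (hv : IsOrd O v) {a : K}
    (ha : a = 0 ∨ 1 ≤ v a) {c : ℂ} (hc : c ≠ 0) :
    a + algebraMap ℂ K c ≠ 0 ∧ v (a + algebraMap ℂ K c) = 0 := by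
  have hc0 : algebraMap ℂ K c ≠ 0 := by simpa using hc
  have hvc := neg_const hO hv hc
  rcases ha with ha | ha
  · subst ha
    simpa using ⟨hc, hvc⟩
  · have hne : a + algebraMap ℂ K c ≠ 0 := by
      intro h0
      by_cases ha0 : a = 0
      · rw [ha0, zero_add] at h0
        exact hc0 h0
      have h1 : a = -algebraMap ℂ K c := eq_neg_of_add_eq_zero_left h0
      rw [h1, hv.map_neg hc0, hvc] at ha
      omega
    refine ⟨hne, ?_⟩
    have h2 : 0 ≤ v (a + algebraMap ℂ K c) :=
      (hv.le_add (B := 0) (Or.inr (by omega)) (Or.inr hvc.ge)).resolve_left hne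
    by_contra h3
    have h4 : 1 ≤ v (a + algebraMap ℂ K c) := by omega
    by_cases ha0 : a = 0
    · rw [ha0, zero_add, hvc] at h4
      omega
    have h5 : 1 ≤ v (-a) := by rw [hv.map_neg ha0]; exact ha
    have h6 := hv.le_add (x := a + algebraMap ℂ K c) (y := -a) (B := 1) (Or.inr h4) (Or.inr h5)
    have h7 : a + algebraMap ℂ K c + -a = algebraMap ℂ K c := by ring
    rw [h7, hvc] at h6
    rcases h6 with h6 | h6
    · exact hc0 h6
    · omega

theorem neg_aeval_mem {O : ValuationSubring K} (hO : IsPlace O) {T : K} (hT : T ∈ O)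
    (g : Polynomial ℂ) : Polynomial.aeval T g ∈ O := by
  rw [Polynomial.aeval_eq_sum_range]
  refine O.toSubring.sum_mem fun i _ => ?_
  rw [Algebra.smul_def]
  exact O.mul_mem _ _ (hO.1 _) (O.toSubring.pow_mem hT i)

/-- the order of `g(T)` at a place over a simple root `r` of `g` is the order of `T - r` -/
theorem neg_root {O : ValuationSubring K} {v : K → ℤ} (hO : IsPlace O) (hv : IsOrd O v) {T : K}
    (hT : Transcendental ℂ T) {g : Polynomial ℂ} (hg : Squarefree g) {r : ℂ} (hr : g.IsRoot r)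
    (h1 : 1 ≤ v (T - algebraMap ℂ K r)) :
    v (Polynomial.aeval T g) = v (T - algebraMap ℂ K r) := by
  have hs0 : T - algebraMap ℂ K r ≠ 0 := by
    intro h
    apply hT
    rw [sub_eq_zero.1 h]
    exact isAlgebraic_algebraMap _
  obtain ⟨g1, hg1⟩ := Polynomial.dvd_iff_isRoot.2 hr
  have hr1 : g1.eval r ≠ 0 := by
    intro h0
    obtain ⟨g2, hg2⟩ := Polynomial.dvd_iff_isRoot.2 (show g1.IsRoot r from h0)
    have h2 : (Polynomial.X - Polynomial.C r) * (Polynomial.X - Polynomial.C r) ∣ g :=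
      ⟨g2, by rw [hg1, hg2]; ring⟩
    exact Polynomial.not_isUnit_X_sub_C r (hg _ h2)
  obtain ⟨g2, hg2⟩ := Polynomial.X_sub_C_dvd_sub_C_eval (p := g1) (a := r)
  have hTO : T ∈ O := by
    have h2 : T - algebraMap ℂ K r ∈ O := (hv.mem_iff hs0).2 (by omega)
    have h3 := O.add_mem _ _ h2 (hO.1 r)
    rwa [sub_add_cancel] at h3
  have h4 : Polynomial.aeval T g1 =
      (T - algebraMap ℂ K r) * Polynomial.aeval T g2 + algebraMap ℂ K (g1.eval r) := by
    have h5 := congrArg (Polynomial.aeval T) hg2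
    simp only [map_sub, map_mul, Polynomial.aeval_X, Polynomial.aeval_C] at h5
    rw [← h5]
    ring
  have h6 : (T - algebraMap ℂ K r) * Polynomial.aeval T g2 = 0 ∨
      1 ≤ v ((T - algebraMap ℂ K r) * Polynomial.aeval T g2) := by
    by_cases h7 : Polynomial.aeval T g2 = 0
    · left; rw [h7, mul_zero]
    · right
      rw [hv.map_mul hs0 h7]
      have h8 := (hv.mem_iff h7).1 (neg_aeval_mem hO hTO g2)
      omega
  have h7 := neg_unit hO hv h6 hr1
  rw [← h4] at h7
  have h8 : Polynomial.aeval T g = (T - algebraMap ℂ K r) * Polynomial.aeval T g1 := by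
    rw [hg1]
    simp only [map_sub, map_mul, Polynomial.aeval_X, Polynomial.aeval_C]
  rw [h8, hv.map_mul hs0 h7.1, h7.2, add_zero]

/-- A bound for the multiplicities of the pencil `T`, for `w² = g(T)`. -/
theorem neg_bound {T w : K} (hT : Transcendental ℂ T) {g : Polynomial ℂ} (hg : Squarefree g)
    (h5 : 5 ≤ g.natDegree) (hw : w ^ 2 = Polynomial.aeval T g)
    (h : ∀ μ : Option ℂ → ℕ, (∀ b, 1 ≤ μ b) →
      (∀ (b : Option ℂ) (O : ValuationSubring K) (v : K → ℤ), IsPlace O → IsOrd O v →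
        1 ≤ v (par T b) → (μ b : ℤ) ≤ v (par T b)) →
      ∀ S : Finset (Option ℂ), ∑ b ∈ S, (1 - 1 / (μ b : ℝ)) ≤ 2) : False := by
  classical
  have hg0 : g ≠ 0 := hg.ne_zero
  have hw0 : w ≠ 0 := by
    intro h0
    rw [h0, zero_pow two_ne_zero] at hw
    exact hT ⟨g, hg0, hw.symm⟩
  let S : Finset (Option ℂ) := g.roots.toFinset.image some
  let μ : Option ℂ → ℕ := fun b => if b ∈ S then 2 else 1
  have h1 : ∀ b, 1 ≤ μ b := by
    intro b
    simp only [μ]
    split_ifs <;> norm_num
  have h2 : ∀ (b : Option ℂ) (O : ValuationSubring K) (v : K → ℤ), IsPlace O → IsOrd O v →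
      1 ≤ v (par T b) → (μ b : ℤ) ≤ v (par T b) := by
    intro b O v hO hv h3
    simp only [μ]
    split_ifs with hb
    · obtain ⟨r, hr, rfl⟩ := Finset.mem_image.1 hb
      have hr' : g.IsRoot r := (Polynomial.mem_roots hg0).1 (Multiset.mem_toFinset.1 hr)
      have h4 : 1 ≤ v (T - algebraMap ℂ K r) := h3
      have h5 := neg_root hO hv hT hg hr' h4
      have h6 := hv.map_pow hw0 2
      rw [hw, h5] at h6
      show ((2 : ℕ) : ℤ) ≤ v (T - algebraMap ℂ K r)
      push_cast at h6 ⊢
      omega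
    · exact_mod_cast h3
  have h3 := h μ h1 h2 S
  have h4 : ∑ b ∈ S, (1 - 1 / (μ b : ℝ)) = (S.card : ℝ) * (1 / 2) := by
    rw [Finset.sum_congr rfl (g := fun _ => (1 / 2 : ℝ))]
    · rw [Finset.sum_const, nsmul_eq_mul]
    · intro b hb
      simp only [μ, if_pos hb]
      norm_num
  have h6 : S.card = g.natDegree := by
    rw [Finset.card_image_of_injective _ (Option.some_injective ℂ),
      Multiset.toFinset_card_of_nodup (Polynomial.nodup_roots
        (PerfectField.separable_iff_squarefree.2 hg))]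
    exact ((IsAlgClosed.splits g).natDegree_eq_card_roots).symm
  rw [h4, h6] at h3
  have h7 : (5 : ℝ) ≤ (g.natDegree : ℝ) := by exact_mod_cast h5
  linarith

end Ord

/-- A projective variety which dominates a hyperelliptic curve `w² = g(T)` of genus at least two is neither special
nor Brody-special. -/
theorem neg_hyper {m : ℕ} (P : Ideal (MvPolynomial (Fin (m + 1)) ℂ)) [P.IsPrime] (hP : IsVariety P)
    (T w : FunField P) (hT : Transcendental ℂ T) (g : Polynomial ℂ) (hg : Squarefree g)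
    (h5 : 5 ≤ g.natDegree) (hw : w ^ 2 = Polynomial.aeval T g) :
    ¬ SpecialField (FunField P) ∧ ¬ BrodySpecial P :=
  ⟨fun hs => neg_bound hT hg h5 hw fun μ h1 h2 S => special_bound T hT hs μ h1 h2 S,
    fun hB => neg_bound hT hg h5 hw fun μ h1 h2 S => sum_le_two_of_brody P hP hB T hT μ h1 h2 S⟩

end Pool.Agent.DP
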