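import Pool.Agent.Lib_MP_1209e6_dp.Defs

/-! PIECE SLOPE: the slope of the tangent line is not a rational function on the plane. -/

set_option autoImplicit false

open MvPolynomial

namespace Pool.Agent.DP

/-- a partial derivative which is not zero has smaller total degree -/
theorem slo_deg (i : Fin 2) (p : MvPolynomial (Fin 2) ℂ) (h : pderiv i p ≠ 0) :
    (pderiv i p).totalDegree + 1 ≤ p.totalDegree := by
  classical
  obtain ⟨m, hm, hd⟩ : ∃ m ∈ (pderiv i p).support, m.sum (fun _ e => e) = (pderiv i p).totalDegree := by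
    rw [MvPolynomial.totalDegree]
    obtain ⟨m, hm, he⟩ := Finset.exists_mem_eq_sup (pderiv i p).support
      (Finset.nonempty_iff_ne_empty.2 (by simpa [MvPolynomial.support_eq_empty] using h))
      (fun s => s.sum fun _ e => e)
    exact ⟨m, hm, he.symm⟩
  rw [MvPolynomial.mem_support_iff, coeff_pderiv] at hm
  have h1 : m + Finsupp.single i 1 ∈ p.support := by
    rw [MvPolynomial.mem_support_iff]
    intro h0
    rw [h0, zero_mul] at hm
    exact hm rfl
  have h2 := MvPolynomial.le_totalDegree h1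
  rw [Finsupp.sum_add_index' (by simp) (by simp), Finsupp.sum_single_index rfl] at h2
  omega

/-- a polynomial dividing its partial derivative has partial derivative zero -/
theorem slo_dvd (i : Fin 2) (p : MvPolynomial (Fin 2) ℂ) (h : p ∣ pderiv i p) : pderiv i p = 0 := by
  by_contra h0
  have h1 := slo_deg i p h0
  obtain ⟨c, hc⟩ := h
  have hp : p ≠ 0 := by
    rintro rfl
    simp at h0
  have hc0 : c ≠ 0 := by
    rintro rfl
    rw [mul_zero] at hc
    exact h0 hc
  have h2 := congrArg MvPolynomial.totalDegree hc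
  rw [totalDegree_mul_of_isDomain hp hc0] at h2
  omega

/-- all partial derivatives zero: a constant -/
theorem slo_const (p : MvPolynomial (Fin 2) ℂ) (h0 : pderiv 0 p = 0) (h1 : pderiv 1 p = 0) :
    ∃ c : ℂ, p = C c := by
  classical
  refine ⟨coeff 0 p, ?_⟩
  ext m
  rw [coeff_C]
  split_ifs with hm
  · rw [← hm]
  · have key : ∀ i : Fin 2, pderiv i p = 0 → m i ≠ 0 → coeff m p = 0 := by
      intro i hi hmi
      have h := congrArg (coeff (m - Finsupp.single i 1)) hi
      rw [coeff_pderiv, coeff_zero] at h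
      have hm' : m - Finsupp.single i 1 + Finsupp.single i 1 = m := by
        apply tsub_add_cancel_of_le
        rw [Finsupp.single_le_iff]
        omega
      rw [hm'] at h
      rcases mul_eq_zero.1 h with h | h
      · exact h
      · exfalso
        exact Nat.cast_add_one_ne_zero _ h
    by_cases ha : m 0 = 0
    · by_cases hb : m 1 = 0
      · exfalso
        apply hm
        ext j
        fin_cases j
        · simpa using ha.symm
        · simpa using hb.symm
      · exact key 1 h1 hb
    · exact key 0 h0 ha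

/-- partial derivatives commute -/
theorem slo_comm (p : MvPolynomial (Fin 2) ℂ) : pderiv 0 (pderiv 1 p) = pderiv 1 (pderiv 0 p) := by
  classical
  ext m
  rw [coeff_pderiv, coeff_pderiv, coeff_pderiv, coeff_pderiv]
  have h1 : (m + Finsupp.single (0 : Fin 2) 1 : Fin 2 →₀ ℕ) 1 = m 1 := by simp
  have h2 : (m + Finsupp.single (1 : Fin 2) 1 : Fin 2 →₀ ℕ) 0 = m 0 := by simp
  rw [h1, h2, add_right_comm]
  ring

/-- Burgers equation for polynomials, coprime `A`, `B`: `B ∣ A² B_y`, so `B ∣ B_y`, `B_y = 0`; `A ∣ B² A_x`,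
so `A_x = 0`; `A B (A_y - B_x) = 0`, so `A_y = B_x` is a constant. -/
theorem burgers (A B : MvPolynomial (Fin 2) ℂ) (hA : A ≠ 0) (hB : B ≠ 0) (hcop : IsRelPrime A B)
    (h : B ^ 2 * pderiv 0 A + A * B * pderiv 1 A = A * B * pderiv 0 B + A ^ 2 * pderiv 1 B) :
    ∃ α a c : ℂ, A = C α * X 1 + C a ∧ B = C α * X 0 + C c := by
  have hBy : pderiv 1 B = 0 := by
    apply slo_dvd
    have h1 : B ∣ A * (A * pderiv 1 B) :=
      ⟨B * pderiv 0 A + A * pderiv 1 A - A * pderiv 0 B, by linear_combination -h⟩
    exact hcop.symm.dvd_of_dvd_mul_left (hcop.symm.dvd_of_dvd_mul_left h1)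
  have hAx : pderiv 0 A = 0 := by
    apply slo_dvd
    have h1 : A ∣ B * (B * pderiv 0 A) :=
      ⟨B * pderiv 0 B + A * pderiv 1 B - B * pderiv 1 A, by linear_combination h⟩
    exact hcop.dvd_of_dvd_mul_left (hcop.dvd_of_dvd_mul_left h1)
  have he : pderiv 1 A = pderiv 0 B := by
    apply mul_left_cancel₀ (mul_ne_zero hA hB)
    rw [hBy, hAx] at h
    linear_combination h
  obtain ⟨α, hα⟩ := slo_const (pderiv 1 A) (by rw [slo_comm, hAx, map_zero])
    (by rw [he, ← slo_comm, hBy, map_zero])
  obtain ⟨a, ha⟩ := slo_const (A - C α * X 1) (by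
      rw [map_sub, pderiv_C_mul, hAx, pderiv_X_of_ne (by decide)]; simp) (by
      rw [map_sub, pderiv_C_mul, hα, pderiv_X_self]; simp)
  obtain ⟨c, hc⟩ := slo_const (B - C α * X 0) (by
      rw [map_sub, pderiv_C_mul, ← he, hα, pderiv_X_self]; simp) (by
      rw [map_sub, pderiv_C_mul, hBy, pderiv_X_of_ne (by decide)]; simp)
  exact ⟨α, a, c, by rw [← ha]; ring, by rw [← hc]; ring⟩

/-- the chain rule on the generic tangent line -/
theorem slo_chain {g : MvPolynomial (Fin 2) ℂ} (T : Tan g) (p : MvPolynomial (Fin 2) ℂ) :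
    Polynomial.derivative (aeval T.pt p) = Polynomial.C (T.v 0) * aeval T.pt (pderiv 0 p) +
      Polynomial.C (T.v 1) * aeval T.pt (pderiv 1 p) := by
  induction p using MvPolynomial.induction_on with
  | C a =>
    rw [pderiv_C, pderiv_C]
    simp only [map_zero, mul_zero, add_zero]
    have : (aeval T.pt (C a : MvPolynomial (Fin 2) ℂ)) = Polynomial.C (algebraMap ℂ T.k a) := by
      rw [MvPolynomial.aeval_C]; rfl
    rw [this, Polynomial.derivative_C]
  | add p q hp hq => rw [map_add, map_add, map_add, map_add, map_add, map_add, hp, hq]; ring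
  | mul_X p i hp =>
    have hpt : Polynomial.derivative (T.pt i) = Polynomial.C (T.v i) := by
      simp [Tan.pt]
    rw [map_mul, Polynomial.derivative_mul, hp, aeval_X, hpt, pderiv_mul, pderiv_mul, map_add, map_add,
      map_mul, map_mul, map_mul, map_mul, aeval_X]
    fin_cases i
    · simp
      ring
    · simp
      ring

/-- `A`, `B` coprime without loss of generality (`hinj`). The derivative in `X` of
`m B (b + X v) = A (b + X v)` gives `A_x + m A_y = m (B_x + m B_y)` at `b + X v`, times `B²`, `hinj`: the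
hypothesis of `burgers`. So `m (α b 0 + c) = α b 1 + a`, apply `δ`. -/
theorem no_slope {g : MvPolynomial (Fin 2) ℂ} (T : Tan g)
    (hinj : ∀ h : MvPolynomial (Fin 2) ℂ, h ≠ 0 → aeval T.pt h ≠ 0)
    (A B : MvPolynomial (Fin 2) ℂ) (hB : B ≠ 0)
    (h : Polynomial.C (T.v 1 / T.v 0) * aeval T.pt B = aeval T.pt A) : False := by
  obtain ⟨B', A', c, hcop, hcB, hcA⟩ := UniqueFactorizationMonoid.exists_reduced_factors B hB A
  have hc0 : c ≠ 0 := by
    rintro rfl
    rw [zero_mul] at hcB
    exact hB hcB.symm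
  have hB' : B' ≠ 0 := by
    rintro rfl
    rw [mul_zero] at hcB
    exact hB hcB.symm
  have h' : Polynomial.C (T.v 1 / T.v 0) * aeval T.pt B' = aeval T.pt A' := by
    apply mul_left_cancel₀ (hinj c hc0)
    rw [← hcB, ← hcA, map_mul, map_mul] at h
    linear_combination h
  have hm0 : T.v 1 / T.v 0 ≠ 0 := by
    intro h0
    apply T.δm
    rw [h0, map_zero]
  have hA' : A' ≠ 0 := by
    rintro rfl
    rw [map_zero] at h'
    rcases mul_eq_zero.1 h' with h1 | h1
    · rw [Polynomial.C_eq_zero] at h1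
      exact hm0 h1
    · exact hinj B' hB' h1
  -- the derivative
  have hd := congrArg Polynomial.derivative h'
  rw [Polynomial.derivative_mul, Polynomial.derivative_C, zero_mul, zero_add, slo_chain, slo_chain] at hd
  have hv1 : Polynomial.C (T.v 1) = Polynomial.C (T.v 1 / T.v 0) * Polynomial.C (T.v 0) := by
    rw [← Polynomial.C_mul, div_mul_cancel₀ _ T.v_ne]
  have hv0 : (Polynomial.C (T.v 0)) ≠ 0 := by
    rw [Ne, Polynomial.C_eq_zero]
    exact T.v_ne
  rw [hv1] at hd
  have hd2 : Polynomial.C (T.v 1 / T.v 0) * (aeval T.pt (pderiv 0 B') +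
      Polynomial.C (T.v 1 / T.v 0) * aeval T.pt (pderiv 1 B')) = aeval T.pt (pderiv 0 A') +
      Polynomial.C (T.v 1 / T.v 0) * aeval T.pt (pderiv 1 A') := by
    apply mul_left_cancel₀ hv0
    linear_combination hd
  have hbur : B' ^ 2 * pderiv 0 A' + A' * B' * pderiv 1 A' =
      A' * B' * pderiv 0 B' + A' ^ 2 * pderiv 1 B' := by
    by_contra hne
    apply hinj _ (sub_ne_zero.2 hne)
    simp only [map_sub, map_add, map_mul, map_pow]
    rw [← h']
    linear_combination (-(aeval T.pt B') ^ 2) * hd2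
  obtain ⟨α, a, c', hAe, hBe⟩ := burgers A' B' hA' hB' hcop.symm hbur
  have hev := congrArg (Polynomial.eval 0) h'
  rw [hAe, hBe] at hev
  have hk : (T.v 1 / T.v 0) * (algebraMap ℂ T.k α * T.b 0 + algebraMap ℂ T.k c') =
      algebraMap ℂ T.k α * T.b 1 + algebraMap ℂ T.k a := by
    simpa [Tan.pt, Polynomial.algebraMap_apply] using hev
  have hδ := congrArg T.δ hk
  simp only [Derivation.leibniz, map_add, Derivation.map_algebraMap, smul_eq_mul, T.δb, add_zero,
    mul_zero] at hδ
  have hv : T.v 1 / T.v 0 * T.v 0 = T.v 1 := div_mul_cancel₀ _ T.v_ne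
  have hz : algebraMap ℂ T.k α * T.b 0 + algebraMap ℂ T.k c' = 0 := by
    have : (algebraMap ℂ T.k α * T.b 0 + algebraMap ℂ T.k c') * T.δ (T.v 1 / T.v 0) = 0 := by
      linear_combination hδ - algebraMap ℂ T.k α * hv
    exact (mul_eq_zero.1 this).resolve_right T.δm
  have hδ2 := congrArg T.δ hz
  simp only [Derivation.leibniz, map_add, Derivation.map_algebraMap, smul_eq_mul, T.δb, add_zero,
    mul_zero, map_zero] at hδ2
  have hα : algebraMap ℂ T.k α = 0 := (mul_eq_zero.1 hδ2).resolve_right T.v_ne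
  have hc' : algebraMap ℂ T.k c' = 0 := by
    rw [hα, zero_mul, zero_add] at hz
    exact hz
  have hα0 : α = 0 := by
    rwa [map_eq_zero] at hα
  have hc0' : c' = 0 := by
    rwa [map_eq_zero] at hc'
  apply hB'
  rw [hBe, hα0, hc0']
  simp

end Pool.Agent.DP
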