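import Pool.Agent.Lib_MP_1209e6_dp.Defs
import Pool.Agent.Lib_MP_1209e6_ag.Der

/-! PIECE TAN: the curve and its tangent data. -/

set_option autoImplicit false

open MvPolynomial

namespace Pool.Agent.DP

/-- the degree of a partial derivative -/
theorem tan_deg (g : MvPolynomial (Fin 2) ℂ) (h : 0 < g.totalDegree) (i : Fin 2) :
    (pderiv i g).totalDegree < g.totalDegree := by
  rw [totalDegree]
  rw [Finset.sup_lt_iff h]
  intro m hm
  rw [mem_support_iff, coeff_pderiv] at hm
  have h1 : coeff (m + Finsupp.single i 1) g ≠ 0 := fun h0 => hm (by rw [h0, zero_mul])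
  have h2 := le_totalDegree (mem_support_iff.2 h1)
  rw [Finsupp.sum_add_index' (fun _ => rfl) (fun _ _ _ => rfl), Finsupp.sum_single_index rfl] at h2
  omega

/-- a polynomial with vanishing partial derivatives is constant -/
theorem tan_const (g : MvPolynomial (Fin 2) ℂ) (h : ∀ i, pderiv i g = 0) : g.totalDegree = 0 := by
  rw [totalDegree_eq_zero_iff_eq_C]
  ext m
  rw [coeff_C]
  split_ifs with h0
  · rw [h0]
  · by_contra h1
    apply h0
    symm
    ext i
    rw [Finsupp.zero_apply]
    by_contra h2
    have h3 := coeff_pderiv (i := i) g (m - Finsupp.single i 1)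
    have h4 : m - Finsupp.single i 1 + Finsupp.single i 1 = m := by
      apply tsub_add_cancel_of_le
      rw [Finsupp.single_le_iff]
      omega
    rw [h, coeff_zero, h4] at h3
    rcases mul_eq_zero.1 h3.symm with h5 | h5
    · exact h1 h5
    · exact Nat.cast_add_one_ne_zero _ h5

/-- no linear relation -/
theorem tan_lin (g : MvPolynomial (Fin 2) ℂ) (h2 : 2 ≤ g.totalDegree) (l : MvPolynomial (Fin 2) ℂ)
    (hl : l.totalDegree ≤ 1) (hd : g ∣ l) : l = 0 := by
  by_contra h0
  have := totalDegree_le_of_dvd_of_isDomain hd h0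
  omega

theorem tan_alg {E : Type} [Field E] [Algebra ℂ E] (x : E)
    (hx : IsAlgebraic ℂ x) : ∃ c : ℂ, algebraMap ℂ E c = x := by
  have h1 : (minpoly ℂ x).degree = 1 := IsAlgClosed.degree_eq_one_of_irreducible ℂ
    (minpoly.irreducible (isAlgebraic_iff_isIntegral.mp hx))
  obtain ⟨c, hc⟩ := minpoly.mem_range_of_degree_eq_one ℂ x h1
  exact ⟨c, hc⟩

/-- the chain rule -/
theorem tan_chain {k : Type} [Field k] [Algebra ℂ k] (b : Fin 2 → k) (D : Derivation ℂ k k)
    (h : MvPolynomial (Fin 2) ℂ) :
    D (aeval b h) = aeval b (pderiv 0 h) * D (b 0) + aeval b (pderiv 1 h) * D (b 1) := by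
  induction h using MvPolynomial.induction_on with
  | C a => simp
  | add p q hp hq => simp only [map_add, hp, hq]; ring
  | mul_X p i hp =>
    rw [map_mul, aeval_X, Derivation.leibniz, hp, pderiv_mul, pderiv_mul, map_add, map_add, map_mul,
      map_mul, map_mul, map_mul, aeval_X, smul_eq_mul, smul_eq_mul]
    fin_cases i
    · simp
      ring
    · simp
      ring

/-- a derivation which vanishes at the generators vanishes -/
theorem tan_zero {k : Type} [Field k] [Algebra ℂ k] (S : Set k)
    (hS : IntermediateField.adjoin ℂ S = ⊤) (D : Derivation ℂ k k) (h : ∀ s ∈ S, D s = 0) (x : k) :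
    D x = 0 := by
  have hx : x ∈ IntermediateField.adjoin ℂ S := by rw [hS]; trivial
  induction hx using IntermediateField.adjoin_induction with
  | mem x hx => exact h x hx
  | algebraMap c => exact D.map_algebraMap c
  | add x y _ _ hx hy => rw [map_add, hx, hy, add_zero]
  | inv x _ hx => rw [Derivation.leibniz_inv, hx, smul_zero]
  | mul x y _ _ hx hy => rw [Derivation.leibniz, hx, hy, smul_zero, smul_zero, add_zero]

/-- the point -/
theorem tan_point (g : MvPolynomial (Fin 2) ℂ) (hg : Irreducible g) :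
    ∃ (k : Type) (_ : Field k) (_ : Algebra ℂ k) (b : Fin 2 → k),
      (∀ h : MvPolynomial (Fin 2) ℂ, aeval b h = 0 ↔ g ∣ h) ∧
        IntermediateField.adjoin ℂ (Set.range b) = ⊤ := by
  have hp : (Ideal.span {g}).IsPrime :=
    (Ideal.span_singleton_prime hg.ne_zero).2 hg.prime
  let Q := MvPolynomial (Fin 2) ℂ ⧸ Ideal.span {g}
  have : IsDomain Q := Ideal.Quotient.isDomain _
  let k := FractionRing Q
  let b : Fin 2 → k := fun i => algebraMap Q k (Ideal.Quotient.mk _ (X i))
  have hb : ∀ h : MvPolynomial (Fin 2) ℂ, aeval b h = algebraMap Q k (Ideal.Quotient.mk _ h) := by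
    intro h
    induction h using MvPolynomial.induction_on with
    | C a =>
      rw [aeval_C]
      rfl
    | add p q hp hq => rw [map_add, hp, hq, map_add, map_add]
    | mul_X p i hp => rw [map_mul, hp, aeval_X, map_mul, map_mul]
  refine ⟨k, inferInstance, inferInstance, b, fun h => ?_, ?_⟩
  · rw [hb, map_eq_zero_iff _ (IsFractionRing.injective Q k), Ideal.Quotient.eq_zero_iff_mem,
      Ideal.mem_span_singleton]
  · rw [eq_top_iff]
    intro x _
    obtain ⟨p, q, hq, rfl⟩ := IsFractionRing.div_surjective (A := Q) x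
    obtain ⟨p, rfl⟩ := Ideal.Quotient.mk_surjective p
    obtain ⟨q, rfl⟩ := Ideal.Quotient.mk_surjective q
    rw [← hb, ← hb]
    have hm : ∀ h : MvPolynomial (Fin 2) ℂ, aeval b h ∈ IntermediateField.adjoin ℂ (Set.range b) := by
      intro h
      induction h using MvPolynomial.induction_on with
      | C a => rw [aeval_C]; exact IntermediateField.algebraMap_mem _ _
      | add p q hp hq => rw [map_add]; exact add_mem hp hq
      | mul_X p i hp =>
        rw [map_mul, aeval_X]
        exact mul_mem hp (IntermediateField.subset_adjoin _ _ ⟨i, rfl⟩)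
    exact div_mem (hm p) (hm q)

/-- `k` = fraction field of `ℂ[X, Y] / (g)`; the derivation `g_Y ∂_X - g_X ∂_Y` of `ℂ[X, Y]` kills `g`,
descends to the quotient and extends to `k`. `v 0 ≠ 0`: `g ∣ pderiv 1 g` forces `pderiv 1 g = 0` (degree),
`g ∈ ℂ[X]` irreducible is linear. `δ m ≠ 0`: the kernel of `δ ≠ 0` in `k` (transcendence degree one) is
`ℂ`; if `m` is constant, so is `c = b 1 - m b 0`, and `g` divides `Y - m X - c`. -/
theorem exists_tan (g : MvPolynomial (Fin 2) ℂ) (hg : Irreducible g) (h2 : 2 ≤ g.totalDegree) :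
    Nonempty (Tan g) := by
  obtain ⟨k, _, _, b, hker, hgen⟩ := tan_point g hg
  -- the coordinates are transcendental
  have htr : ∀ i, Transcendental ℂ (b i) := by
    intro i hi
    obtain ⟨c, hc⟩ := tan_alg _ hi
    have h1 : aeval b (X i - C c : MvPolynomial (Fin 2) ℂ) = 0 := by
      rw [map_sub, aeval_X, aeval_C, hc, sub_self]
    have h3 : (X i - C c : MvPolynomial (Fin 2) ℂ).totalDegree ≤ 1 := by
      refine (totalDegree_sub _ _).trans ?_
      rw [totalDegree_X, totalDegree_C]
      simp
    have h4 := tan_lin g h2 _ h3 ((hker _).1 h1)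
    have h5 := congrArg (pderiv i) h4
    rw [map_sub, pderiv_X_self, pderiv_C, sub_zero, map_zero] at h5
    exact one_ne_zero h5
  have hind : ∀ i, AlgebraicIndependent ℂ (fun _ : Unit => b i) := fun i => by
    rw [algebraicIndependent_unique_type_iff]
    exact htr i
  have hgb : aeval b g = 0 := (hker g).2 (dvd_refl g)
  have hdiv : ∀ i, aeval b (pderiv i g) = 0 → pderiv i g = 0 := by
    intro i hi
    by_contra h0
    have h1 := totalDegree_le_of_dvd_of_isDomain ((hker _).1 hi) h0
    have h3 := tan_deg g (by omega) i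
    omega
  have hv0 : aeval b (pderiv 1 g) ≠ 0 := by
    intro h0
    obtain ⟨D, hD⟩ := Pool.Agent.Campana.exists_derivation (k := ℂ) (K := k) _ (hind 0) (fun _ => 1)
    have h1 := tan_chain b D g
    rw [hgb, map_zero, h0, zero_mul, add_zero, hD (), mul_one] at h1
    have h3 : ∀ i, pderiv i g = 0 := fun i => by
      fin_cases i
      · exact hdiv 0 h1.symm
      · exact hdiv 1 h0
    have := tan_const g h3
    omega
  obtain ⟨D, hD⟩ := Pool.Agent.Campana.exists_derivation (k := ℂ) (K := k) _ (hind 0) (fun _ => 1)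
  have hD0 : D (b 0) = 1 := hD ()
  have hD1 : aeval b (pderiv 1 g) * D (b 1) = - aeval b (pderiv 0 g) := by
    have h1 := tan_chain b D g
    rw [hgb, map_zero, hD0, mul_one] at h1
    linear_combination -h1
  -- the kernel of `D`
  have hkerD : ∀ x : k, D x = 0 → ∃ c : ℂ, algebraMap ℂ k c = x := by
    intro x hx
    by_cases hxa : IsAlgebraic ℂ x
    · exact tan_alg x hxa
    exfalso
    have hi : AlgebraicIndependent ℂ (fun _ : Unit => x) := by
      rw [algebraicIndependent_unique_type_iff]
      exact hxa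
    obtain ⟨D', hD'⟩ := Pool.Agent.Campana.exists_derivation (k := ℂ) (K := k) _ hi (fun _ => 1)
    have hx1 : D' x = 1 := hD' ()
    have h1 := tan_chain b D' g
    rw [hgb, map_zero] at h1
    have h3 : ∀ s ∈ Set.range b, (D' - D' (b 0) • D) s = 0 := by
      rintro _ ⟨i, rfl⟩
      rw [Derivation.sub_apply, Derivation.smul_apply, smul_eq_mul]
      fin_cases i
      · change D' (b 0) - D' (b 0) * D (b 0) = 0
        rw [hD0]
        ring
      · change D' (b 1) - D' (b 0) * D (b 1) = 0
        apply mul_left_cancel₀ hv0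
        linear_combination -h1 - D' (b 0) * hD1
    have h4 := tan_zero _ hgen _ h3 x
    rw [Derivation.sub_apply, Derivation.smul_apply, smul_eq_mul, hx, hx1] at h4
    norm_num at h4
  refine ⟨⟨k, b, ![aeval b (pderiv 1 g), - aeval b (pderiv 0 g)], aeval b (pderiv 1 g) • D, hker,
    hgen, rfl, rfl, ?_, hv0, ?_⟩⟩
  · intro i
    rw [Derivation.smul_apply, smul_eq_mul]
    fin_cases i
    · change aeval b (pderiv 1 g) * D (b 0) = aeval b (pderiv 1 g)
      rw [hD0, mul_one]
    · exact hD1
  · intro h0
    rw [Derivation.smul_apply, smul_eq_mul] at h0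
    obtain ⟨c, hc⟩ := hkerD _ ((mul_eq_zero.1 h0).resolve_left hv0)
    change algebraMap ℂ k c = (- aeval b (pderiv 0 g)) / aeval b (pderiv 1 g) at hc
    rw [eq_div_iff hv0] at hc
    -- `D (b 1) = c`
    have h1 : D (b 1) = algebraMap ℂ k c := by
      apply mul_left_cancel₀ hv0
      rw [hD1, ← hc]
      ring
    have h3 : D (b 1 - c • b 0) = 0 := by
      rw [map_sub, Derivation.map_smul, hD0, h1, Algebra.smul_def, mul_one, sub_self]
    obtain ⟨d, hd⟩ := hkerD _ h3
    have h4 : aeval b (X 1 - C c * X 0 - C d : MvPolynomial (Fin 2) ℂ) = 0 := by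
      rw [map_sub, map_sub, map_mul, aeval_X, aeval_X, aeval_C, aeval_C, hd, Algebra.smul_def]
      ring
    have h5 : (X 1 - C c * X 0 - C d : MvPolynomial (Fin 2) ℂ).totalDegree ≤ 1 := by
      refine (totalDegree_sub _ _).trans (max_le ((totalDegree_sub _ _).trans (max_le ?_ ?_)) ?_)
      · rw [totalDegree_X]
      · refine (totalDegree_mul _ _).trans ?_
        rw [totalDegree_X, totalDegree_C]
      · rw [totalDegree_C]
        omega
    have h6 := congrArg (pderiv 1) (tan_lin g h2 _ h5 ((hker _).1 h4))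
    rw [map_sub, map_sub, pderiv_X_self, pderiv_C_mul, pderiv_X_of_ne (by decide), pderiv_C, mul_zero,
      sub_zero, sub_zero, map_zero] at h6
    exact one_ne_zero h6

end Pool.Agent.DP
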